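import Pool.Agent.P.MP_d10a06_co.Odd.Robust

namespace Pool.Agent.P.MP_d10a06_co.Odd

open Finset

variable {G : Type} [AddCommGroup G] [Fintype G] [DecidableEq G]

omit [Fintype G] [DecidableEq G] in
lemma char_sum {ι : Type*} (ψ : AddChar G ℂ) (s : Finset ι) (f : ι → G) :
    ψ (∑ i ∈ s, f i) = ∏ i ∈ s, ψ (f i) := by
  classical
  induction s using Finset.induction_on with
  | empty => simp
  | insert a s ha ih => rw [sum_insert ha, prod_insert ha, AddChar.map_add_eq_mul, ih]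

lemma moment {ι : Type*} (k : ℕ) (X : Finset ι) (φ : ι → G) :
    ∑ ψ : AddChar G ℂ, (∑ x ∈ X, ψ (φ x)) ^ k = Fintype.card G *
      (((Fintype.piFinset fun _ : Fin k => X).filter fun p => ∑ i, φ (p i) = 0).card : ℂ) := by
  simp only [sum_pow', ← char_sum]
  rw [sum_comm]
  simp only [AddChar.sum_apply_eq_ite]
  rw [← sum_filter, sum_const, nsmul_eq_mul, mul_comm]

/-- Bohr set -/
noncomputable def Bohr (Γ : Finset (AddChar G ℂ)) (ρ : ℝ) : Finset G :=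
  univ.filter fun x => ∀ ψ ∈ Γ, ‖ψ x - 1‖ ≤ ρ

omit [DecidableEq G] in
lemma Bohr_neg {Γ : Finset (AddChar G ℂ)} {ρ : ℝ} {x : G} (hx : x ∈ Bohr Γ ρ) : -x ∈ Bohr Γ ρ := by
  simp only [Bohr, mem_filter, mem_univ, true_and] at hx ⊢
  intro ψ hψ
  rw [AddChar.map_neg_eq_conj, ← RCLike.norm_conj]
  simpa using hx ψ hψ

lemma floor_close {s u v : ℝ} (hs : 0 < s) (hu : -1 ≤ u) (hv : -1 ≤ v)
    (h : ⌊(u + 1) / s⌋₊ = ⌊(v + 1) / s⌋₊) : |u - v| ≤ s := by
  have a1 := Nat.floor_le (a := (u + 1) / s) (div_nonneg (by linarith) hs.le)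
  have a2 := Nat.lt_floor_add_one ((u + 1) / s)
  have a3 := Nat.floor_le (a := (v + 1) / s) (div_nonneg (by linarith) hs.le)
  have a4 := Nat.lt_floor_add_one ((v + 1) / s)
  rw [h] at a1 a2
  rw [le_div_iff₀ hs] at a1 a3
  rw [div_lt_iff₀ hs] at a2 a4
  rw [abs_le]
  constructor <;> linarith

omit [DecidableEq G] in
lemma card_Bohr (Γ : Finset (AddChar G ℂ)) {ρ : ℝ} (hρ : 0 < ρ) :
    Fintype.card G ≤ (Bohr Γ ρ).card * ((⌊4 / ρ⌋₊ + 1) * (⌊4 / ρ⌋₊ + 1)) ^ Γ.card := by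
  classical
  have hb : ∀ u : ℝ, u ≤ 1 → ⌊(u + 1) / (ρ / 2)⌋₊ ∈ range (⌊4 / ρ⌋₊ + 1) := by
    intro u hu
    rw [mem_range, Nat.lt_add_one_iff]
    refine Nat.floor_le_floor ?_
    rw [div_le_div_iff₀ (by positivity) hρ]
    nlinarith
  have h := card_le_mul_card_image_of_maps_to (s := (univ : Finset G))
    (t := Fintype.piFinset fun _ : Γ => range (⌊4 / ρ⌋₊ + 1) ×ˢ range (⌊4 / ρ⌋₊ + 1))
    (f := fun x (ψ : Γ) => (⌊((ψ.1 x).re + 1) / (ρ / 2)⌋₊, ⌊((ψ.1 x).im + 1) / (ρ / 2)⌋₊))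
    (fun x _ => Fintype.mem_piFinset.mpr fun ψ => mem_product.mpr
      ⟨hb _ ((Complex.re_le_norm _).trans (ψ.1.norm_apply x).le),
        hb _ ((Complex.im_le_norm _).trans (ψ.1.norm_apply x).le)⟩) (Bohr Γ ρ).card (by
      intro c _
      rcases (univ.filter fun x : G => (fun (ψ : Γ) => (⌊((ψ.1 x).re + 1) / (ρ / 2)⌋₊,
        ⌊((ψ.1 x).im + 1) / (ρ / 2)⌋₊)) = c).eq_empty_or_nonempty with h | ⟨y, hy⟩
      · rw [h]; simp
      refine card_le_card_of_injOn (fun x => x - y) ?_ (fun a _ b _ e => by simpa using e)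
      intro x hx
      simp only [coe_filter, mem_univ, true_and, Set.mem_ofPred_eq, mem_filter, Bohr] at hx hy ⊢
      intro ψ hψ
      have e := congrFun (hx.trans hy.symm) ⟨ψ, hψ⟩
      simp only [Prod.mk.injEq] at e
      have lo : ∀ z, -1 ≤ (ψ z).re ∧ -1 ≤ (ψ z).im := fun z =>
        ⟨(abs_le.mp ((Complex.abs_re_le_norm _).trans (ψ.norm_apply z).le)).1,
          (abs_le.mp ((Complex.abs_im_le_norm _).trans (ψ.norm_apply z).le)).1⟩
      have e1 := floor_close (by positivity) (lo x).1 (lo y).1 e.1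
      have e2 := floor_close (by positivity) (lo x).2 (lo y).2 e.2
      have e3 : ψ x - ψ y = (ψ (x - y) - 1) * ψ y := by
        rw [sub_mul, ← AddChar.map_add_eq_mul]; simp
      have e4 := Complex.norm_le_abs_re_add_abs_im (ψ x - ψ y)
      rw [Complex.sub_re, Complex.sub_im, e3, norm_mul, ψ.norm_apply, mul_one] at e4
      linarith)
  rw [Fintype.card_piFinset, card_univ] at h
  simpa using h

/-- representation function -/
def ww (T B : Finset G) (x : G) : ℕ := ((T ×ˢ B).filter fun p => p.1 + p.2 = x).card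

lemma sum_ww (T B : Finset G) : ∑ x, ww T B x = T.card * B.card := by
  rw [← card_product]
  exact (card_eq_sum_card_fiberwise (f := fun p : G × G => p.1 + p.2)
    (fun _ _ => mem_univ _)).symm

omit [Fintype G] in
lemma ww_neg {T B : Finset G} (hT : ∀ x ∈ T, -x ∈ T) (hB : ∀ x ∈ B, -x ∈ B) (x : G) :
    ww T B x ≤ ww T B (-x) := by
  refine card_le_card_of_injOn (fun p => -p) ?_ fun a _ b _ h => neg_injective h
  intro p hp
  simp only [coe_filter, mem_product, Set.mem_ofPred_eq, Prod.fst_neg, Prod.snd_neg] at hp ⊢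
  exact ⟨⟨hT _ hp.1.1, hB _ hp.1.2⟩, by rw [← hp.2]; abel⟩

lemma sum_ww_sq {T : Finset G} (hT : ∀ x ∈ T, -x ∈ T)
    (h4 : ∀ a ∈ T, ∀ b ∈ T, ∀ c ∈ T, ∀ d ∈ T, a + b + c + d = 0 → a + b = 0 ∨ a + c = 0 ∨ a + d = 0)
    (B : Finset G) : ∑ x, ww T B x ^ 2 ≤ T.card * B.card + 2 * B.card ^ 2 := by
  have e1 : ∑ x, ww T B x ^ 2 = (((T ×ˢ B) ×ˢ (T ×ˢ B)).filter
      fun z => z.1.1 + z.1.2 = z.2.1 + z.2.2).card := by
    rw [card_eq_sum_card_fiberwise (f := fun z : (G × G) × (G × G) => z.1.1 + z.1.2) (t := univ)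
      (fun _ _ => mem_univ _)]
    refine sum_congr rfl fun x _ => ?_
    rw [sq, ww, ← card_product]
    congr 1
    ext z
    simp only [mem_product, mem_filter]
    constructor
    · rintro ⟨⟨h1, h2⟩, h3, h5⟩
      exact ⟨⟨⟨h1, h3⟩, h2.trans h5.symm⟩, h2⟩
    · rintro ⟨⟨⟨h1, h3⟩, h2⟩, h5⟩
      exact ⟨⟨h1, h5⟩, h3, h2.symm.trans h5⟩
  rw [e1, card_eq_sum_card_fiberwise (f := fun z : (G × G) × (G × G) => (z.1.2, z.2.2))
    (t := B ×ˢ B) (fun z hz => by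
      simp only [coe_filter, mem_product, Set.mem_ofPred_eq, coe_product, Set.mem_prod,
        mem_coe] at hz ⊢
      exact ⟨hz.1.1.2, hz.1.2.2⟩)]
  have e2 : T.card * B.card + 2 * B.card ^ 2 =
      ∑ q ∈ B ×ˢ B, ((if q.1 = q.2 then T.card else 0) + 2) := by
    rw [sum_add_distrib, sum_product, sum_const, card_product, smul_eq_mul,
      sum_congr rfl (g := fun _ => T.card) fun b hb => by simp [hb], sum_const, smul_eq_mul]
    ring
  rw [e2]
  refine sum_le_sum fun q _ => ?_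
  split_ifs with hq
  · refine le_trans (card_le_card_of_injOn (fun z => z.1.1) ?_ ?_) (Nat.le_add_right _ _)
    · intro z hz
      simp only [coe_filter, mem_filter, mem_product, Set.mem_ofPred_eq, mem_coe] at hz ⊢
      exact hz.1.1.1.1
    · rintro ⟨⟨t, b⟩, t', b'⟩ hz ⟨⟨u, c⟩, u', c'⟩ hw e
      simp only [coe_filter, mem_filter, Set.mem_ofPred_eq, Prod.ext_iff] at hz hw e ⊢
      refine ⟨⟨e, hz.2.1.trans hw.2.1.symm⟩, ?_, hz.2.2.trans hw.2.2.symm⟩
      linear_combination (norm := abel1) e - hz.1.2 + hw.1.2 + hz.2.1 - hz.2.2 - hw.2.1 + hw.2.2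
  · rw [zero_add]
    rcases (filter (fun z : (G × G) × (G × G) => (z.1.2, z.2.2) = q) (((T ×ˢ B) ×ˢ (T ×ˢ B)).filter
      fun z => z.1.1 + z.1.2 = z.2.1 + z.2.2)).eq_empty_or_nonempty with h | ⟨⟨⟨t, b⟩, t', b'⟩, hz⟩
    · rw [h]; simp
    refine le_trans (card_le_card (t := {((t, b), (t', b')), ((-t', b), (-t, b'))}) ?_) card_le_two
    rintro ⟨⟨u, c⟩, u', c'⟩ hw
    simp only [mem_filter, mem_product, Prod.ext_iff, mem_insert, mem_singleton] at hz hw ⊢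
    obtain ⟨⟨⟨⟨m1, -⟩, m2, -⟩, z1⟩, z2, z3⟩ := hz
    obtain ⟨⟨⟨⟨m3, -⟩, m4, -⟩, w1⟩, w2, w3⟩ := hw
    obtain rfl : c = b := w2.trans z2.symm
    obtain rfl : c' = b' := w3.trans z3.symm
    rcases h4 u m3 _ (hT _ m4) _ (hT _ m1) t' m2 (by linear_combination (norm := abel1) w1 - z1)
      with h | h | h
    · exact absurd (by linear_combination (norm := abel1) w1 - h - z2 + z3) hq
    · exact Or.inl ⟨⟨by linear_combination (norm := abel1) h, rfl⟩,
        by linear_combination (norm := abel1) h - w1 + z1, rfl⟩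
    · exact Or.inr ⟨⟨by linear_combination (norm := abel1) h, rfl⟩,
        by linear_combination (norm := abel1) h - w1 + z1, rfl⟩

omit [Fintype G] in
lemma card_Zs4 {T : Finset G}
    (h4 : ∀ a ∈ T, ∀ b ∈ T, ∀ c ∈ T, ∀ d ∈ T, a + b + c + d = 0 → a + b = 0 ∨ a + c = 0 ∨ a + d = 0) :
    (Zs 4 T).card ≤ 3 * T.card ^ 2 := by
  have h : Zs 4 T ⊆ (T ×ˢ T).image (fun p => ![p.1, -p.1, p.2, -p.2]) ∪
      (T ×ˢ T).image (fun p => ![p.1, p.2, -p.1, -p.2]) ∪
      (T ×ˢ T).image (fun p => ![p.1, p.2, -p.2, -p.1]) := by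
    intro x hx
    simp only [Zs, mem_filter, Fintype.mem_piFinset, Fin.sum_univ_four] at hx
    simp only [mem_union, mem_image, mem_product, Prod.exists]
    rcases h4 _ (hx.1 0) _ (hx.1 1) _ (hx.1 2) _ (hx.1 3) hx.2 with h | h | h
    · refine Or.inl (Or.inl ⟨x 0, x 2, ⟨hx.1 0, hx.1 2⟩, funext fun i => ?_⟩)
      fin_cases i
      · rfl
      · change -x 0 = x 1; linear_combination (norm := abel1) -h
      · rfl
      · change -x 2 = x 3; linear_combination (norm := abel1) h - hx.2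
    · refine Or.inl (Or.inr ⟨x 0, x 1, ⟨hx.1 0, hx.1 1⟩, funext fun i => ?_⟩)
      fin_cases i
      · rfl
      · rfl
      · change -x 0 = x 2; linear_combination (norm := abel1) -h
      · change -x 1 = x 3; linear_combination (norm := abel1) h - hx.2
    · refine Or.inr ⟨x 0, x 1, ⟨hx.1 0, hx.1 1⟩, funext fun i => ?_⟩
      fin_cases i
      · rfl
      · rfl
      · change -x 1 = x 2; linear_combination (norm := abel1) h - hx.2
      · change -x 0 = x 3; linear_combination (norm := abel1) -h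
  have := (card_le_card h).trans ((card_union_le _ _).trans (add_le_add
    ((card_union_le _ _).trans (add_le_add card_image_le card_image_le)) card_image_le))
  rw [card_product] at this
  linarith

lemma sum_norm4 {T : Finset G} (hT : ∀ x ∈ T, -x ∈ T)
    (h4 : ∀ a ∈ T, ∀ b ∈ T, ∀ c ∈ T, ∀ d ∈ T, a + b + c + d = 0 → a + b = 0 ∨ a + c = 0 ∨ a + d = 0) :
    ∑ ψ : AddChar G ℂ, ‖∑ t ∈ T, ψ t‖ ^ 4 ≤ Fintype.card G * (3 * (T.card : ℝ) ^ 2) := by
  have e : ∀ ψ : AddChar G ℂ, ((‖∑ t ∈ T, ψ t‖ ^ 4 : ℝ) : ℂ) = (∑ t ∈ T, ψ t) ^ 4 := by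
    intro ψ
    have c : (starRingEnd ℂ) (∑ t ∈ T, ψ t) = ∑ t ∈ T, ψ t := by
      rw [map_sum]
      exact sum_bij (fun t _ => -t) hT (fun a _ b _ h => neg_injective h)
        (fun b hb => ⟨-b, hT b hb, neg_neg b⟩) fun a _ => (ψ.map_neg_eq_conj a).symm
    have := Complex.mul_conj' (∑ t ∈ T, ψ t)
    rw [c] at this
    push_cast
    linear_combination -((∑ t ∈ T, ψ t) ^ 2 + (‖∑ t ∈ T, ψ t‖ : ℂ) ^ 2) * this
  have h1 := moment 4 T (fun x : G => x)
  simp only [← e] at h1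
  have h2 : ∑ ψ : AddChar G ℂ, ‖∑ t ∈ T, ψ t‖ ^ 4 = Fintype.card G * ((Zs 4 T).card : ℝ) := by
    exact_mod_cast h1
  rw [h2]
  have : ((Zs 4 T).card : ℝ) ≤ 3 * (T.card : ℝ) ^ 2 := by exact_mod_cast card_Zs4 h4
  gcongr

lemma five_bound {T : Finset G} (hT : ∀ x ∈ T, -x ∈ T)
    (h4 : ∀ a ∈ T, ∀ b ∈ T, ∀ c ∈ T, ∀ d ∈ T, a + b + c + d = 0 → a + b = 0 ∨ a + c = 0 ∨ a + d = 0)
    (h5 : Zs 5 T = ∅) {ε : ℝ} (hε : 0 < ε) {B : Finset G}
    (hB : ∀ ψ : AddChar G ℂ, ε * T.card ≤ ‖∑ t ∈ T, ψ t‖ → ∀ x ∈ B, ‖ψ x - 1‖ ≤ ε) :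
    (((Fintype.piFinset fun _ : Fin 5 => T ×ˢ B).filter
      fun p => ∑ i, ((p i).1 + (p i).2) = 0).card : ℝ) ≤
        15 * ε * (T.card : ℝ) ^ 3 * (B.card : ℝ) ^ 5 := by
  have hn : (0 : ℝ) < Fintype.card G := by exact_mod_cast Fintype.card_pos
  have h1 := moment 5 (T ×ˢ B) (fun p : G × G => p.1 + p.2)
  have h2 := moment 5 T (fun x : G => x)
  change _ = _ * ((Zs 5 T).card : ℂ) at h2
  rw [h5, card_empty, Nat.cast_zero, mul_zero] at h2
  have e : ∀ ψ : AddChar G ℂ, ∑ p ∈ T ×ˢ B, ψ (p.1 + p.2) = (∑ t ∈ T, ψ t) * ∑ b ∈ B, ψ b := by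
    intro ψ
    rw [sum_product, sum_mul_sum]
    simp only [AddChar.map_add_eq_mul]
  simp only [e] at h1
  have h3 : ∑ ψ : AddChar G ℂ, (∑ t ∈ T, ψ t) ^ 5 * ((∑ b ∈ B, ψ b) ^ 5 - (B.card : ℂ) ^ 5) =
      Fintype.card G * (((Fintype.piFinset fun _ : Fin 5 => T ×ˢ B).filter
      fun p => ∑ i, ((p i).1 + (p i).2) = 0).card : ℂ) := by
    simp only [mul_sub, sum_sub_distrib, ← mul_pow, h1]
    simp only [mul_pow, ← sum_mul, h2, zero_mul, sub_zero]
  have tb : ∀ (ψ : AddChar G ℂ) (X : Finset G), ‖∑ t ∈ X, ψ t‖ ≤ X.card := fun ψ X =>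
    (norm_sum_le _ _).trans (by simp)
  have h6 : ∀ ψ : AddChar G ℂ, ‖(∑ t ∈ T, ψ t) ^ 5 * ((∑ b ∈ B, ψ b) ^ 5 - (B.card : ℂ) ^ 5)‖ ≤
      ‖∑ t ∈ T, ψ t‖ ^ 4 * (5 * ε * T.card * (B.card : ℝ) ^ 5) := by
    intro ψ
    rw [norm_mul, norm_pow, pow_succ, mul_assoc]
    refine mul_le_mul_of_nonneg_left ?_ (by positivity)
    have hb := tb ψ B
    by_cases hψ : ε * T.card ≤ ‖∑ t ∈ T, ψ t‖
    · have a1 : ‖∑ b ∈ B, ψ b - B.card‖ ≤ B.card * ε := by
        rw [card_eq_sum_ones B, Nat.cast_sum, ← sum_sub_distrib, ← card_eq_sum_ones,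
          ← nsmul_eq_mul]
        refine (norm_sum_le _ _).trans (sum_le_card_nsmul _ _ _ fun x hx => ?_)
        simpa using hB ψ hψ x hx
      generalize ∑ b ∈ B, ψ b = β at *
      have a2 : β ^ 5 - (B.card : ℂ) ^ 5 = (β - B.card) * (β ^ 4 + β ^ 3 * B.card +
          β ^ 2 * B.card ^ 2 + β * B.card ^ 3 + B.card ^ 4) := by ring
      have a3 : ‖β ^ 4 + β ^ 3 * B.card + β ^ 2 * B.card ^ 2 + β * B.card ^ 3 + B.card ^ 4‖ ≤
          (B.card : ℝ) ^ 4 + B.card ^ 3 * B.card + B.card ^ 2 * B.card ^ 2 + B.card * B.card ^ 3 +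
            B.card ^ 4 := by
        refine norm_add_le_of_le (norm_add_le_of_le (norm_add_le_of_le (norm_add_le_of_le ?_ ?_)
          ?_) ?_) ?_ <;> simp only [norm_mul, norm_pow, Complex.norm_natCast] <;> gcongr
      rw [a2, norm_mul]
      calc _ ≤ (T.card : ℝ) * ((B.card * ε) * ((B.card : ℝ) ^ 4 + B.card ^ 3 * B.card +
            B.card ^ 2 * B.card ^ 2 + B.card * B.card ^ 3 + B.card ^ 4)) := by
            gcongr
            exact tb ψ T
        _ = _ := by ring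
    · push Not at hψ
      have a1 : ‖(∑ b ∈ B, ψ b) ^ 5 - (B.card : ℂ) ^ 5‖ ≤ (B.card : ℝ) ^ 5 + (B.card : ℝ) ^ 5 := by
        refine norm_sub_le_of_le ?_ ?_ <;> simp only [norm_pow, Complex.norm_natCast] <;> gcongr
      calc _ ≤ (ε * T.card) * ((B.card : ℝ) ^ 5 + (B.card : ℝ) ^ 5) := by gcongr
        _ ≤ _ := by
          have : 0 ≤ ε * T.card * (B.card : ℝ) ^ 5 := by positivity
          linarith
  have h7 := (norm_sum_le _ _).trans (sum_le_sum (s := univ) fun ψ _ => h6 ψ)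
  rw [h3, ← sum_mul, norm_mul, Complex.norm_natCast, Complex.norm_natCast] at h7
  refine le_of_mul_le_mul_left (h7.trans ?_) hn
  calc _ ≤ (Fintype.card G * (3 * (T.card : ℝ) ^ 2)) * (5 * ε * T.card * (B.card : ℝ) ^ 5) := by
        gcongr
        exact sum_norm4 hT h4
    _ = _ := by ring

lemma level_five (T B : Finset G) {l : ℝ} (hl : 0 ≤ l) :
    ((Zs 5 (univ.filter fun x => l ≤ ww T B x)).card : ℝ) * l ^ 5 ≤
      (((Fintype.piFinset fun _ : Fin 5 => T ×ˢ B).filter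
        fun p => ∑ i, ((p i).1 + (p i).2) = 0).card : ℝ) := by
  have a1 : ((Zs 5 (univ.filter fun x => l ≤ ww T B x)).sigma fun x => Fintype.piFinset
      fun i => (T ×ˢ B).filter fun p => p.1 + p.2 = x i).card ≤
      ((Fintype.piFinset fun _ : Fin 5 => T ×ˢ B).filter
        fun p => ∑ i, ((p i).1 + (p i).2) = 0).card := by
    refine card_le_card_of_injOn (fun z => z.2) ?_ ?_
    · rintro ⟨x, p⟩ hz
      simp only [coe_sigma, Set.mem_sigma_iff, mem_coe, Zs, mem_filter, Fintype.mem_piFinset] at hz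
      simp only [coe_filter, Fintype.mem_piFinset, Set.mem_ofPred_eq]
      exact ⟨fun i => (hz.2 i).1, by rw [sum_congr rfl fun i _ => (hz.2 i).2]; exact hz.1.2⟩
    · rintro ⟨x, p⟩ hz ⟨y, q⟩ hw e
      simp only [coe_sigma, Set.mem_sigma_iff, mem_coe, mem_filter, Fintype.mem_piFinset] at hz hw
      obtain rfl : p = q := e
      obtain rfl : x = y := funext fun i => (hz.2 i).2.symm.trans (hw.2 i).2
      rfl
  rw [card_sigma] at a1
  refine le_trans ?_ (Nat.cast_le.mpr a1)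
  rw [← nsmul_eq_mul, Nat.cast_sum]
  refine card_nsmul_le_sum _ _ _ fun x hx => ?_
  simp only [Zs, mem_filter, Fintype.mem_piFinset, mem_univ, true_and] at hx
  rw [Fintype.card_piFinset, Nat.cast_prod]
  simpa [ww] using prod_le_prod (s := (univ : Finset (Fin 5))) (f := fun _ => l) (fun _ _ => hl)
    fun i _ => hx.1 i

end Pool.Agent.P.MP_d10a06_co.Odd
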