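import Mathlib

namespace Pool.Agent.P.MP_d10a06_co.Odd

open Finset Pointwise

variable {G : Type*} [AddCommGroup G] [Fintype G] [DecidableEq G]

/-- stabiliser of a finite set -/
def St (X : Finset G) : Finset G := univ.filter fun g => ∀ x ∈ X, x + g ∈ X

/-- `X` is periodic under `H` -/
def Per (H X : Finset G) : Prop := ∀ x ∈ X, ∀ h ∈ H, x + h ∈ X

lemma mem_St {X : Finset G} {g : G} : g ∈ St X ↔ ∀ x ∈ X, x + g ∈ X := by simp [St]

lemma zero_mem_St (X : Finset G) : (0 : G) ∈ St X := by simp [mem_St]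

lemma add_mem_St {X : Finset G} {g h : G} (hg : g ∈ St X) (hh : h ∈ St X) : g + h ∈ St X := by
  rw [mem_St] at *
  intro x hx
  rw [← add_assoc]
  exact hh _ (hg _ hx)

lemma neg_mem_St {X : Finset G} {g : G} (hg : g ∈ St X) : -g ∈ St X := by
  rw [mem_St] at *
  have h1 : X.image (· + g) = X := by
    refine eq_of_subset_of_card_le (fun y hy => ?_) ?_
    · obtain ⟨x, hx, rfl⟩ := mem_image.mp hy
      exact hg x hx
    · rw [card_image_of_injective _ (add_left_injective g)]
  intro x hx
  rw [← h1] at hx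
  obtain ⟨y, hy, rfl⟩ := mem_image.mp hx
  simpa using hy

lemma sub_mem_St {X : Finset G} {g h : G} (hg : g ∈ St X) (hh : h ∈ St X) : g - h ∈ St X := by
  rw [sub_eq_add_neg]; exact add_mem_St hg (neg_mem_St hh)

lemma per_St (X : Finset G) : Per (St X) X := fun x hx _ hh => mem_St.mp hh x hx

lemma Per.sub_St {H X : Finset G} (h : Per H X) : H ⊆ St X :=
  fun g hg => mem_St.mpr fun x hx => h x hx g hg

lemma per_add_St (X Y : Finset G) : Per (St Y) (X + St Y) := by
  intro x hx h hh
  obtain ⟨a, ha, k, hk, rfl⟩ := mem_add.mp hx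
  rw [add_assoc]
  exact add_mem_add ha (add_mem_St hk hh)

lemma subset_add_St (X Y : Finset G) : X ⊆ X + St Y := fun x hx => by
  simpa using add_mem_add hx (zero_mem_St Y)

omit [Fintype G] in
lemma Per.add_right {H X : Finset G} (h : Per H X) (Y : Finset G) : Per H (X + Y) := by
  intro z hz g hg
  obtain ⟨a, ha, b, hb, rfl⟩ := mem_add.mp hz
  rw [add_right_comm]
  exact add_mem_add (h a ha g hg) hb

omit [Fintype G] in
lemma Per.add_left {H X : Finset G} (h : Per H X) (Y : Finset G) : Per H (Y + X) := by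
  rw [add_comm]; exact h.add_right Y

lemma Per.add_eq {X Y : Finset G} (h : Per (St Y) X) : X + St Y = X := by
  refine Subset.antisymm (fun z hz => ?_) (subset_add_St X Y)
  obtain ⟨a, ha, b, hb, rfl⟩ := mem_add.mp hz
  exact h a ha b hb

lemma St_add_subset (X Y : Finset G) : St X ⊆ St (X + Y) := ((per_St X).add_right Y).sub_St

lemma add_St_add (A B : Finset G) : (A + St (A + B)) + (B + St (A + B)) = A + B := by
  refine Subset.antisymm (fun z hz => ?_) (add_subset_add (subset_add_St _ _) (subset_add_St _ _))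
  obtain ⟨u, hu, v, hv, rfl⟩ := mem_add.mp hz
  obtain ⟨a, ha, k, hk, rfl⟩ := mem_add.mp hu
  obtain ⟨b, hb, l, hl, rfl⟩ := mem_add.mp hv
  rw [add_add_add_comm]
  exact mem_St.mp (add_mem_St hk hl) _ (add_mem_add ha hb)

/-- cosets -/
def Co (a : G) (H : Finset G) : Finset G := H.image (a + ·)

omit [Fintype G] in
lemma mem_Co {a x : G} {H : Finset G} : x ∈ Co a H ↔ x - a ∈ H := by
  simp only [Co, mem_image]
  constructor
  · rintro ⟨h, hh, rfl⟩; simpa using hh
  · intro h; exact ⟨x - a, h, by abel⟩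

omit [Fintype G] in
lemma card_Co (a : G) (H : Finset G) : (Co a H).card = H.card :=
  card_image_of_injective _ (add_right_injective a)

lemma card_dvd {Y : Finset G} : ∀ (X : Finset G), Per (St Y) X → (St Y).card ∣ X.card := by
  intro X
  induction X using Finset.strongInduction with
  | H X ih =>
    intro hX
    rcases X.eq_empty_or_nonempty with rfl | ⟨x, hx⟩
    · simp
    have hs : Co x (St Y) ⊆ X := fun z hz => by
      simpa using hX x hx _ (mem_Co.mp hz)
    have hx' : x ∈ Co x (St Y) := mem_Co.mpr (by simpa using zero_mem_St Y)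
    have := ih (X \ Co x (St Y)) (sdiff_ssubset hs ⟨x, hx'⟩) (by
      intro z hz h hh
      rw [mem_sdiff] at hz ⊢
      refine ⟨hX z hz.1 h hh, fun hc => hz.2 ?_⟩
      rw [mem_Co] at hc ⊢
      have := sub_mem_St hc hh
      convert this using 1; abel)
    rw [← card_sdiff_add_card_eq_card hs, card_Co]
    exact this.add dvd_rfl

/-- One step of the convergent argument. -/
lemma step {A B C P Q : Finset G} {u v : G}
    (ih : ∀ X Y : Finset G, X.Nonempty → Y.Nonempty → (X + Y).card < (A + B).card →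
      X.card + Y.card ≤ (X + Y).card + (St (X + Y)).card)
    (hC : C ⊆ A + B) (hCne : C.Nonempty) (hK : Per (St (A + B)) C)
    (hconv : (A ∩ B).card + (A ∪ B + St C).card ≤ C.card + (St C).card)
    (hmin : ∀ C' ⊆ A + B, Per (St (A + B)) C' →
      (A ∩ B).card + (A ∪ B + St C').card ≤ C'.card + (St C').card → (St C).card ≤ (St C').card)
    (hPA : P ⊆ A) (hQB : Q ⊆ B) (hP : P.Nonempty) (hQ : Q.Nonempty) (hPK : Per (St (A + B)) P)
    (hPu : ∀ x ∈ P, x - u ∈ St C) (hQv : ∀ x ∈ Q, x - v ∈ St C)
    {h : G} (hh : h ∈ St C) (hout : u + v + h ∉ A + B) :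
    St (P + Q) ⊆ St C ∧ Disjoint C (P + Q) ∧
    (P + St (P + Q)).card + (Q + St (P + Q)).card ≤ (P + Q).card + (St (P + Q)).card ∧
    (A ∪ B + St C).card + (P + St (P + Q)).card + (Q + St (P + Q)).card <
      (A ∪ B + St (P + Q)).card + (St C).card := by
  have hD : P + Q ⊆ A + B := add_subset_add hPA hQB
  have hDc : ∀ z ∈ P + Q, z - (u + v) ∈ St C := by
    intro z hz
    obtain ⟨p, hp, q, hq, rfl⟩ := mem_add.mp hz
    have := add_mem_St (hPu p hp) (hQv q hq)
    convert this using 1; abel
  have hCc : ∀ z ∈ C, z - (u + v) ∉ St C := by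
    intro z hz hc
    refine hout (hC ?_)
    have := mem_St.mp (sub_mem_St hh hc) z hz
    convert this using 1; abel
  have hdis : Disjoint C (P + Q) := disjoint_left.mpr fun z h1 h2 => hCc z h1 (hDc z h2)
  obtain ⟨d, hd⟩ : (P + Q).Nonempty := hP.add hQ
  have h1 : St (P + Q) ⊆ St C := by
    intro g hg
    have := sub_mem_St (hDc _ (mem_St.mp hg d hd)) (hDc d hd)
    convert this using 1; abel
  have h2 : St (C ∪ (P + Q)) = St (P + Q) := by
    refine Subset.antisymm (fun g hg => ?_) (fun g hg => mem_St.mpr fun z hz => ?_)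
    · by_cases hgH : g ∈ St C
      · refine mem_St.mpr fun z hz => ?_
        rcases mem_union.mp (mem_St.mp hg z (mem_union_right _ hz)) with h3 | h3
        · refine absurd ?_ (hCc _ h3)
          have := add_mem_St (hDc z hz) hgH
          convert this using 1; abel
        · exact h3
      · exfalso
        rcases mem_union.mp (mem_St.mp hg d (mem_union_right _ hd)) with h3 | h3
        · have h4 := mem_St.mp (sub_mem_St hh (hDc d hd)) _ h3
          have h5 := mem_St.mp (neg_mem_St hg) _ (mem_union_left _ h4)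
          refine hout (union_subset hC hD ?_)
          convert h5 using 1; abel
        · refine hgH ?_
          have := sub_mem_St (hDc _ h3) (hDc d hd)
          convert this using 1; abel
    · rcases mem_union.mp hz with h3 | h3
      · exact mem_union_left _ (mem_St.mp (h1 hg) z h3)
      · exact mem_union_right _ (mem_St.mp hg z h3)
  have h3 : (St (P + Q)).card < (St C).card := by
    refine card_lt_card ⟨h1, fun hc => hout (hD ?_)⟩
    have := mem_St.mp (hc (sub_mem_St hh (hDc d hd))) d hd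
    convert this using 1; abel
  have h4 : (P + Q).card < (A + B).card := by
    have := card_le_card (union_subset hC hD)
    rw [card_union_of_disjoint hdis] at this
    have := hCne.card_pos
    omega
  have h5 := ih (P + St (P + Q)) (Q + St (P + Q)) (hP.mono (subset_add_St _ _))
    (hQ.mono (subset_add_St _ _)) (by rw [add_St_add]; exact h4)
  rw [add_St_add] at h5
  refine ⟨h1, hdis, h5, ?_⟩
  have h6 : ¬ ((A ∩ B).card + (A ∪ B + St (C ∪ (P + Q))).card ≤
      (C ∪ (P + Q)).card + (St (C ∪ (P + Q))).card) := by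
    intro hc
    have := hmin _ (union_subset hC hD) (by
      intro z hz g hg
      rcases mem_union.mp hz with h7 | h7
      · exact mem_union_left _ (hK z h7 g hg)
      · exact mem_union_right _ (hPK.add_right Q z h7 g hg)) hc
    rw [h2] at this
    omega
  rw [h2, card_union_of_disjoint hdis] at h6
  omega

lemma gap_lower {A B C D W : Finset G} {a : G} (ha : a ∈ A ∪ B) (hD : St D ⊆ St C)
    (hW : ∀ x ∈ A ∪ B, x - a ∈ St C → x ∈ W) :
    (A ∪ B + St D).card + (St C).card ≤ (A ∪ B + St C).card + (W + St D).card := by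
  have h1 : (A ∪ B + St D) ∪ (Co a (St C) \ (W + St D)) ⊆ A ∪ B + St C := by
    refine union_subset (add_subset_add_left hD) fun z hz => ?_
    have := add_mem_add ha (mem_Co.mp (mem_sdiff.mp hz).1)
    simpa using this
  have h2 : Disjoint (A ∪ B + St D) (Co a (St C) \ (W + St D)) := by
    refine disjoint_left.mpr fun z h3 h4 => (mem_sdiff.mp h4).2 ?_
    obtain ⟨x, hx, g, hg, rfl⟩ := mem_add.mp h3
    refine add_mem_add (hW x hx ?_) hg
    have := sub_mem_St (mem_Co.mp (mem_sdiff.mp h4).1) (hD hg)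
    convert this using 1; abel
  have h3 := card_le_card h1
  rw [card_union_of_disjoint h2] at h3
  have h4 := le_card_sdiff (W + St D) (Co a (St C))
  rw [card_Co] at h4
  omega

lemma core {A B : Finset G}
    (ih : ∀ X Y : Finset G, X.Nonempty → Y.Nonempty → (X + Y).card < (A + B).card →
      X.card + Y.card ≤ (X + Y).card + (St (X + Y)).card)
    (hA : Per (St (A + B)) A) (hB : Per (St (A + B)) B) (hAB : (A ∩ B).Nonempty)
    (h0 : (A ∩ B).card + (A ∪ B + St (A ∩ B + (A ∪ B))).card ≤
      (A ∩ B + (A ∪ B)).card + (St (A ∩ B + (A ∪ B))).card) :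
    A.card + B.card ≤ (A + B).card + (St (A + B)).card := by
  classical
  by_contra hcon
  have hI : Per (St (A + B)) (A ∩ B) := fun x hx g hg =>
    mem_inter.mpr ⟨hA x (mem_inter.mp hx).1 g hg, hB x (mem_inter.mp hx).2 g hg⟩
  obtain ⟨C, hCm, hmin⟩ := exists_min_image ((A + B).powerset.filter fun C =>
      Per (St (A + B)) C ∧ (A ∩ B).card + (A ∪ B + St C).card ≤ C.card + (St C).card)
    (fun C => (St C).card) ⟨A ∩ B + (A ∪ B), by
      rw [mem_filter, mem_powerset]
      exact ⟨inter_add_union_subset, hI.add_right _, h0⟩⟩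
  rw [mem_filter, mem_powerset] at hCm
  obtain ⟨hC, hK, hconv⟩ := hCm
  have hmin' : ∀ C' ⊆ A + B, Per (St (A + B)) C' →
      (A ∩ B).card + (A ∪ B + St C').card ≤ C'.card + (St C').card →
      (St C).card ≤ (St C').card := fun C' h1 h2 h3 =>
    hmin C' (mem_filter.mpr ⟨mem_powerset.mpr h1, h2, h3⟩)
  have hiu := card_union_add_card_inter A B
  have hCle := card_le_card hC
  obtain ⟨x0, hx0⟩ := hAB
  have hCne : C.Nonempty := by
    rw [nonempty_iff_ne_empty]
    rintro rfl
    have h1 : Co x0 (St (∅ : Finset G)) ⊆ A ∪ B + St ∅ := fun z hz => by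
      simpa using add_mem_add (mem_union_left B (mem_inter.mp hx0).1) (mem_Co.mp hz)
    have h2 := card_le_card h1
    rw [card_Co] at h2
    have := card_pos.mpr ⟨x0, hx0⟩
    simp only [card_empty] at hconv
    omega
  by_cases hH : St C ⊆ St (A + B)
  · have h1 := card_le_card hH
    have h2 := card_le_card (subset_add_St (A ∪ B) C)
    omega
  obtain ⟨h, hh, hn⟩ := not_subset.mp hH
  rw [mem_St] at hn
  push Not at hn
  obtain ⟨z, hz, hout⟩ := hn
  obtain ⟨a, ha, b, hb, rfl⟩ := mem_add.mp hz
  set A1 := A.filter fun x => x - a ∈ St C with hA1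
  set A2 := A.filter fun x => x - b ∈ St C with hA2
  set B1 := B.filter fun x => x - b ∈ St C with hB1
  set B2 := B.filter fun x => x - a ∈ St C with hB2
  have hKC : St (A + B) ⊆ St C := hK.sub_St
  have hper : ∀ u : G, Per (St (A + B)) (A.filter fun x => x - u ∈ St C) := by
    intro u x hx g hg
    rw [mem_filter] at hx ⊢
    refine ⟨hA x hx.1 g hg, ?_⟩
    have := add_mem_St hx.2 (hKC hg)
    convert this using 1; abel
  have a1 : a ∈ A1 := mem_filter.mpr ⟨ha, by simpa using zero_mem_St C⟩
  have b1 : b ∈ B1 := mem_filter.mpr ⟨hb, by simpa using zero_mem_St C⟩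
  obtain ⟨s1, d1, k1, e1⟩ := step (P := A1) (Q := B1) (u := a) (v := b) ih hC hCne hK hconv hmin'
    (filter_subset _ _) (filter_subset _ _) ⟨a, a1⟩ ⟨b, b1⟩ (hper a)
    (fun x hx => (mem_filter.mp hx).2) (fun x hx => (mem_filter.mp hx).2) hh hout
  have hB2 : B2.Nonempty := by
    by_contra hc
    have := gap_lower (W := A1) (mem_union_left B ha) s1 (fun x hx hxa => by
      rcases mem_union.mp hx with h1 | h1
      · exact mem_filter.mpr ⟨h1, hxa⟩
      · exact absurd ⟨x, mem_filter.mpr ⟨h1, hxa⟩⟩ hc)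
    omega
  have hA2 : A2.Nonempty := by
    by_contra hc
    have := gap_lower (W := B1) (mem_union_right A hb) s1 (fun x hx hxa => by
      rcases mem_union.mp hx with h1 | h1
      · exact absurd ⟨x, mem_filter.mpr ⟨h1, hxa⟩⟩ hc
      · exact mem_filter.mpr ⟨h1, hxa⟩)
    omega
  have hab : a - b ∉ St C := by
    intro hc
    have := gap_lower (W := A1 ∪ B1) (mem_union_left B ha) s1 (fun x hx hxa => by
      rcases mem_union.mp hx with h1 | h1
      · exact mem_union_left _ (mem_filter.mpr ⟨h1, hxa⟩)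
      · refine mem_union_right _ (mem_filter.mpr ⟨h1, ?_⟩)
        have := add_mem_St hxa hc
        convert this using 1; abel)
    rw [union_add (s₁ := A1)] at this
    have h2 := card_union_le (A1 + St (A1 + B1)) (B1 + St (A1 + B1))
    omega
  obtain ⟨s2, d2, k2, e2⟩ := step (P := A2) (Q := B2) (u := b) (v := a) ih hC hCne hK hconv hmin'
    (filter_subset _ _) (filter_subset _ _) hA2 hB2 (hper b)
    (fun x hx => (mem_filter.mp hx).2) (fun x hx => (mem_filter.mp hx).2) hh
    (by rwa [add_comm b a])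
  have three : ∀ P Q : Finset G, St (P + Q) ⊆ St C →
      (A ∪ B + St C).card + (P + St (P + Q)).card + (Q + St (P + Q)).card <
        (A ∪ B + St (P + Q)).card + (St C).card →
      (P + St (P + Q)).card + (Q + St (P + Q)).card + (St (P + Q)).card ≤ (St C).card := by
    intro P Q s e
    have h1 := card_le_card (add_subset_add_left (s := A ∪ B) s)
    obtain ⟨i, hi⟩ := card_dvd (Y := P + Q) _ (per_add_St P _)
    obtain ⟨j, hj⟩ := card_dvd (Y := P + Q) _ (per_add_St Q _)
    obtain ⟨k, hk⟩ := card_dvd (Y := P + Q) (St C) fun x hx g hg => add_mem_St hx (s hg)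
    have h2 : (St (P + Q)).card * (i + j) < (St (P + Q)).card * k := by
      rw [mul_add]; omega
    have h3 := Nat.mul_le_mul_left (St (P + Q)).card
      (Nat.succ_le_of_lt (lt_of_mul_lt_mul_left h2 (Nat.zero_le _)))
    rw [Nat.succ_eq_add_one, mul_add, mul_add, mul_one] at h3
    omega
  have t1 := three _ _ s1 e1
  have t2 := three _ _ s2 e2
  have hST : (A ∪ B) ∪ ((Co a (St C) \ (A1 ∪ B2)) ∪ (Co b (St C) \ (A2 ∪ B1))) ⊆
      A ∪ B + St C := by
    refine union_subset (subset_add_St _ _) (union_subset (fun z hz => ?_) (fun z hz => ?_))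
    · simpa using add_mem_add (mem_union_left B ha) (mem_Co.mp (mem_sdiff.mp hz).1)
    · simpa using add_mem_add (mem_union_right A hb) (mem_Co.mp (mem_sdiff.mp hz).1)
  have dd1 : Disjoint (Co a (St C) \ (A1 ∪ B2)) (Co b (St C) \ (A2 ∪ B1)) := by
    refine disjoint_left.mpr fun z h1 h2 => hab ?_
    have := sub_mem_St (mem_Co.mp (mem_sdiff.mp h2).1) (mem_Co.mp (mem_sdiff.mp h1).1)
    convert this using 1; abel
  have dd2 : Disjoint (A ∪ B) ((Co a (St C) \ (A1 ∪ B2)) ∪ (Co b (St C) \ (A2 ∪ B1))) := by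
    refine disjoint_left.mpr fun z h1 h2 => ?_
    rcases mem_union.mp h2 with h3 | h3 <;> rw [mem_sdiff, mem_Co] at h3 <;> refine h3.2 ?_ <;>
      rcases mem_union.mp h1 with h4 | h4
    · exact mem_union_left _ (mem_filter.mpr ⟨h4, h3.1⟩)
    · exact mem_union_right _ (mem_filter.mpr ⟨h4, h3.1⟩)
    · exact mem_union_left _ (mem_filter.mpr ⟨h4, h3.1⟩)
    · exact mem_union_right _ (mem_filter.mpr ⟨h4, h3.1⟩)
  have c1 := card_le_card hST
  rw [card_union_of_disjoint dd2, card_union_of_disjoint dd1] at c1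
  have c2 := le_card_sdiff (A1 ∪ B2) (Co a (St C))
  have c3 := le_card_sdiff (A2 ∪ B1) (Co b (St C))
  rw [card_Co] at c2 c3
  have c4 := card_union_le A1 B2
  have c5 := card_union_le A2 B1
  have c6 := card_le_card (union_subset hC
    (add_subset_add (filter_subset _ A) (filter_subset _ B) : A1 + B1 ⊆ A + B))
  have c7 := card_le_card (union_subset hC
    (add_subset_add (filter_subset _ A) (filter_subset _ B) : A2 + B2 ⊆ A + B))
  rw [card_union_of_disjoint d1] at c6
  rw [card_union_of_disjoint d2] at c7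
  have c8 := card_le_card (subset_add_St A1 (A1 + B1))
  have c9 := card_le_card (subset_add_St B1 (A1 + B1))
  have c10 := card_le_card (subset_add_St A2 (A2 + B2))
  have c11 := card_le_card (subset_add_St B2 (A2 + B2))
  have c12 := card_pos.mpr ⟨_, zero_mem_St (A + B)⟩
  omega

lemma St_image (X : Finset G) (c : G) : St (X.image (· + c)) = St X := by
  ext g
  simp only [mem_St, mem_image, forall_exists_index, and_imp, forall_apply_eq_imp_iff₂]
  refine forall₂_congr fun x _ => ⟨?_, fun h => ⟨x + g, h, by abel⟩⟩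
  rintro ⟨y, hy, e⟩
  have : x + g = y := by linear_combination (norm := abel1) -e
  rwa [this]

/-- Kneser's theorem (DeVos's proof). -/
theorem kneser (A B : Finset G) (hA : A.Nonempty) (hB : B.Nonempty) :
    A.card + B.card ≤ (A + B).card + (St (A + B)).card := by
  induction hn : (A + B).card using Nat.strong_induction_on generalizing A B with
  | _ n ihn =>
  induction hm : (A + St (A + B)).card using Nat.strong_induction_on generalizing A B with
  | _ m ihm =>
  subst hn
  have e0 := add_St_add A B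
  set K := St (A + B) with hK
  have pA : Per K (A + K) := per_add_St A _
  have pB : Per K (B + K) := per_add_St B _
  have cA := card_le_card (subset_add_St A (A + B))
  have cB := card_le_card (subset_add_St B (A + B))
  rw [← hK] at cA cB
  obtain ⟨a, ha⟩ := hA
  by_cases h1 : ∀ a' ∈ A + K, a' - a ∈ K
  · have h2 : A + K ⊆ Co a K := fun z hz => mem_Co.mpr (h1 z hz)
    have h3 := card_le_card h2
    rw [card_Co] at h3
    have h4 : B.card ≤ (A + B).card := card_le_card_add_left ⟨a, ha⟩
    omega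
  push Not at h1
  obtain ⟨a', ha', hn⟩ := h1
  have h2 : a' - a ∉ St (B + K) := fun hc => hn (by
    have := St_add_subset (B + K) (A + K) hc
    rwa [add_comm, e0] at this)
  rw [mem_St] at h2
  push Not at h2
  obtain ⟨b, hb, hb'⟩ := h2
  set A' := A + K with hA'
  set B' := (B + K).image (· + (a - b)) with hB'
  have e1 : A' + B' = (A + B).image (· + (a - b)) := by
    rw [← e0]
    ext z
    simp only [hB', mem_add (s := A'), mem_image]
    constructor
    · rintro ⟨x, hx, y, ⟨w, hw, rfl⟩, rfl⟩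
      exact ⟨x + w, ⟨x, hx, w, hw, rfl⟩, by abel⟩
    · rintro ⟨_, ⟨x, hx, w, hw, rfl⟩, rfl⟩
      exact ⟨x, hx, _, ⟨w, hw, rfl⟩, by abel⟩
  have e2 : St (A' + B') = K := by rw [e1, St_image]
  have e3 : (A' + B').card = (A + B).card := by
    rw [e1, card_image_of_injective _ (add_left_injective _)]
  have e4 : B'.card = (B + K).card := card_image_of_injective _ (add_left_injective _)
  have pB' : Per K B' := by
    intro x hx g hg
    obtain ⟨w, hw, rfl⟩ := mem_image.mp hx
    exact mem_image.mpr ⟨w + g, pB w hw g hg, by abel⟩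
  have haI : a ∈ A' ∩ B' :=
    mem_inter.mpr ⟨subset_add_St _ _ ha, mem_image.mpr ⟨b, hb, by abel⟩⟩
  have hlt : (A' ∩ B').card < A'.card := by
    refine card_lt_card ⟨inter_subset_left, fun hc => hb' ?_⟩
    obtain ⟨w, hw, e⟩ := mem_image.mp (mem_inter.mp (hc ha')).2
    have : b + (a' - a) = w := by linear_combination (norm := abel1) -e
    rwa [this]
  have hI : Per K (A' ∩ B') := fun x hx g hg =>
    mem_inter.mpr ⟨pA x (mem_inter.mp hx).1 g hg, pB' x (mem_inter.mp hx).2 g hg⟩
  have hsub : A' ∩ B' + (A' ∪ B') ⊆ A' + B' := inter_add_union_subset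
  have e5 : A' ∩ B' + (A' ∪ B' + St (A' ∩ B' + (A' ∪ B'))) = A' ∩ B' + (A' ∪ B') := by
    rw [← add_assoc, (per_St _).add_eq]
  have hne : (A' ∪ B' + St (A' ∩ B' + (A' ∪ B'))).Nonempty :=
    ⟨a, subset_add_St _ _ (mem_union_left _ (mem_inter.mp haI).1)⟩
  have h0 : (A' ∩ B').card + (A' ∪ B' + St (A' ∩ B' + (A' ∪ B'))).card ≤
      (A' ∩ B' + (A' ∪ B')).card + (St (A' ∩ B' + (A' ∪ B'))).card := by
    rcases (card_le_card hsub).lt_or_eq with hl | hl
    · have := ihn _ (e3 ▸ hl) _ _ ⟨a, haI⟩ hne (by rw [e5])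
      rwa [e5] at this
    · have e6 : A' ∩ B' + (A' ∪ B') = A' + B' := eq_of_subset_of_card_le hsub hl.ge
      have := ihm (A' ∩ B').card (hm ▸ hlt) _ _ ⟨a, haI⟩ hne (by rw [e5, e6, e3])
        (by rw [e5, e6, e2, hK, hI.add_eq])
      rw [e5] at this
      rw [hl, e3]
      exact this
  have := core (A := A') (B := B') (fun X Y hX hY hl => ihn _ (e3 ▸ hl) X Y hX hY rfl)
    (e2 ▸ pA) (e2 ▸ pB') ⟨a, haI⟩ h0
  rw [e2, e3, e4] at this
  omega

end Pool.Agent.P.MP_d10a06_co.Odd
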