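import Mathlib

namespace Pool.Agent.P.MP_d10a06_co.Odd

open Finset SimpleGraph SimpleGraph.TripartiteFromTriangles

/-- solutions of `a + b + c = 0` -/
def Sol {G : Type*} [AddCommGroup G] [DecidableEq G] (A B C : Finset G) : Finset (G × G) :=
  (A ×ˢ B).filter fun p => -(p.1 + p.2) ∈ C

/-- Arithmetic removal lemma for three sets. -/
theorem removal {ε : ℝ} (hε : 0 < ε) : ∃ δ : ℝ, 0 < δ ∧ ∀ (G : Type) [AddCommGroup G] [Fintype G]
    [DecidableEq G] (A B C : Finset G), ((Sol A B C).card : ℝ) ≤ δ * (Fintype.card G : ℝ) ^ 2 →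
    ∃ A' ⊆ A, ∃ B' ⊆ B, ∃ C' ⊆ C, ((A \ A').card : ℝ) ≤ ε * Fintype.card G ∧
      ((B \ B').card : ℝ) ≤ ε * Fintype.card G ∧ ((C \ C').card : ℝ) ≤ ε * Fintype.card G ∧
      ∀ a ∈ A', ∀ b ∈ B', ∀ c ∈ C', a + b + c ≠ 0 := by
  refine ⟨triangleRemovalBound (ε / 9), triangleRemovalBound_pos (by positivity), ?_⟩
  intro G _ _ _ A B C hS
  classical
  obtain ⟨M, hM, hmax⟩ := exists_max_image ((Sol A B C).powerset.filter fun M =>
    ∀ p ∈ M, ∀ q ∈ M, (p.1 = q.1 ∨ p.2 = q.2 ∨ p.1 + p.2 = q.1 + q.2) → p = q) card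
    ⟨∅, by simp⟩
  rw [mem_filter, mem_powerset] at hM
  by_cases hc : (M.card : ℝ) ≤ ε * Fintype.card G
  · have key : ∀ (X : Finset G) (f : G × G → G),
        ((X \ (X \ M.image f)).card : ℝ) ≤ ε * Fintype.card G := by
      intro X f
      refine le_trans ?_ hc
      have : (X \ (X \ M.image f)).card ≤ M.card :=
        (card_le_card fun x hx => by
          rw [mem_sdiff, mem_sdiff, not_and, not_not] at hx
          exact hx.2 hx.1).trans card_image_le
      exact_mod_cast this
    refine ⟨A \ M.image Prod.fst, sdiff_subset, B \ M.image Prod.snd, sdiff_subset,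
      C \ M.image fun p => -(p.1 + p.2), sdiff_subset, key _ _, key _ _, key _ _, ?_⟩
    intro a ha b hb c hc e
    rw [mem_sdiff] at ha hb hc
    have e' : -(a + b) = c := by linear_combination (norm := abel1) -e
    have n1 : ∀ q ∈ M, a ≠ q.1 := fun q hq h => ha.2 (mem_image.mpr ⟨q, hq, h.symm⟩)
    have n2 : ∀ q ∈ M, b ≠ q.2 := fun q hq h => hb.2 (mem_image.mpr ⟨q, hq, h.symm⟩)
    have n3 : ∀ q ∈ M, a + b ≠ q.1 + q.2 := fun q hq h =>
      hc.2 (mem_image.mpr ⟨q, hq, by rw [← h, e']⟩)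
    have hn : (a, b) ∉ M := fun h => n1 _ h rfl
    have := hmax (insert (a, b) M) (by
      rw [mem_filter, mem_powerset]
      refine ⟨insert_subset ?_ hM.1, ?_⟩
      · exact mem_filter.mpr ⟨mem_product.mpr ⟨ha.1, hb.1⟩, by rw [e']; exact hc.1⟩
      · intro p hp q hq h
        rcases mem_insert.mp hp with rfl | hp <;> rcases mem_insert.mp hq with rfl | hq
        · rfl
        · rcases h with h | h | h
          exacts [absurd h (n1 q hq), absurd h (n2 q hq), absurd h (n3 q hq)]
        · rcases h with h | h | h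
          exacts [absurd h.symm (n1 p hp), absurd h.symm (n2 p hp), absurd h.symm (n3 p hp)]
        · exact hM.2 p hp q hq h)
    rw [card_insert_of_notMem hn] at this
    omega
  exfalso
  push Not at hc
  set f : G × (G × G) → G × G × G := fun z => (z.1, z.1 + z.2.1, z.1 + z.2.1 + z.2.2) with hf
  have finj : Function.Injective f := by
    rintro ⟨x, a, b⟩ ⟨y, c, d⟩ e
    simp only [hf, Prod.mk.injEq] at e
    obtain ⟨rfl, e1, e2⟩ := e
    obtain rfl : a = c := by simpa using e1
    obtain rfl : b = d := by simpa using e2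
    rfl
  set t := (univ ×ˢ M).image f with ht
  have hmem : ∀ x y z, (x, y, z) ∈ t ↔ (y - x, z - y) ∈ M := by
    intro x y z
    simp only [ht, hf, mem_image, mem_product, mem_univ, true_and, Prod.exists, Prod.mk.injEq]
    constructor
    · rintro ⟨u, a, b, h, rfl, rfl, rfl⟩
      simpa using h
    · intro h
      exact ⟨x, _, _, h, rfl, by abel, by abel⟩
  have : ExplicitDisjoint t := ⟨fun a b c a' h1 h2 => by
      rw [hmem] at h1 h2
      simpa using congrArg Prod.fst (hM.2 _ h1 _ h2 (Or.inr (Or.inl rfl))),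
    fun a b c b' h1 h2 => by
      rw [hmem] at h1 h2
      simpa using congrArg Prod.fst (hM.2 _ h1 _ h2 (Or.inr (Or.inr (by simp)))),
    fun a b c c' h1 h2 => by
      rw [hmem] at h1 h2
      simpa using congrArg Prod.snd (hM.2 _ h1 _ h2 (Or.inl rfl))⟩
  have hn : (0 : ℝ) < Fintype.card G := by exact_mod_cast Fintype.card_pos
  have hct : (t.card : ℝ) = Fintype.card G * M.card := by
    rw [ht, card_image_of_injective _ finj, card_product, card_univ]; push_cast; ring
  have h1 := (farFromTriangleFree t (ε := ε / 9) (by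
    rw [hct]; push_cast; nlinarith)).le_card_cliqueFinset
  have h2 : (graph t).cliqueFinset 3 ⊆ (univ ×ˢ Sol A B C).image (toTriangle ∘ f) := by
    intro s hs
    rw [mem_cliqueFinset_iff, SimpleGraph.is3Clique_iff] at hs
    obtain ⟨x, y, z, hxy, hxz, hyz, rfl⟩ := hs
    obtain ⟨a, b, c, habc, hab, hac, hbc⟩ := graph_triple hxy hxz hyz
    obtain ⟨c', hc'⟩ := Graph.in₀₁_iff.1 hab
    obtain ⟨b', hb'⟩ := Graph.in₀₂_iff.1 hac
    obtain ⟨a', ha'⟩ := Graph.in₁₂_iff.1 hbc
    rw [hmem] at ha' hb' hc'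
    have m1 := hM.1 ha'
    have m2 := hM.1 hb'
    have m3 := hM.1 hc'
    simp only [Sol, mem_filter, mem_product] at m1 m2 m3
    refine mem_image.mpr ⟨(a, b - a, c - b), ?_, ?_⟩
    · simp only [Sol, mem_filter, mem_product, mem_univ, true_and]
      refine ⟨⟨m3.1.1, m1.1.2⟩, ?_⟩
      convert m2.2 using 1; abel
    · rw [← habc]
      simp [hf]
  have h3 := (card_le_card h2).trans card_image_le
  rw [card_product, card_univ] at h3
  have h4 : (((graph t).cliqueFinset 3).card : ℝ) ≤ Fintype.card G * (Sol A B C).card := by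
    exact_mod_cast h3
  have h5 := triangleRemovalBound_pos (ε := ε / 9) (by positivity)
  simp only [Fintype.card_sum] at h1
  push_cast at h1
  have h6 : 0 < triangleRemovalBound (ε / 9) * (Fintype.card G : ℝ) ^ 3 := by positivity
  nlinarith

end Pool.Agent.P.MP_d10a06_co.Odd
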