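import Pool.Agent.P.MP_d10a06_co.Odd.Kneser
import Pool.Agent.P.MP_d10a06_co.Odd.Removal

namespace Pool.Agent.P.MP_d10a06_co.Odd

open Finset Pointwise

section
variable {G : Type} [AddCommGroup G] [Fintype G] [DecidableEq G]

/-- zero sums of length `k` -/
def Zs (k : ℕ) (F : Finset G) : Finset (Fin k → G) :=
  (Fintype.piFinset fun _ => F).filter fun x => ∑ i, x i = 0

lemma index_cases {e : ℕ} (hodd : Odd (Fintype.card G))
    (he : ∀ d, d ∣ Fintype.card G → 5 < d → e ≤ d) (X : Finset G) :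
    (∀ x : G, x ∈ St X) ∨ (∀ x : G, x + x + x ∈ St X) ∨ (∀ x : G, x + x + x + x + x ∈ St X) ∨
      e * (St X).card ≤ Fintype.card G := by
  let H : AddSubgroup G :=
    { carrier := St X
      zero_mem' := zero_mem_St X
      add_mem' := add_mem_St
      neg_mem' := neg_mem_St }
  have h1 : Nat.card H * H.index = Nat.card G := H.card_mul_index
  have h2 : Nat.card H = (St X).card := by
    rw [← Nat.card_eq_finsetCard]; rfl
  rw [h2, Nat.card_eq_fintype_card] at h1
  have h3 : ∀ x : G, H.index • x ∈ St X := fun x => H.nsmul_index_mem x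
  have hd : H.index ∣ Fintype.card G := Dvd.intro_left _ h1
  have ho : H.index % 2 = 1 := Nat.odd_iff.mp (hodd.of_dvd_nat hd)
  by_cases h5 : 5 < H.index
  · refine Or.inr (Or.inr (Or.inr ?_))
    rw [← h1, mul_comm]
    exact Nat.mul_le_mul_left _ (he _ hd h5)
  have : H.index = 1 ∨ H.index = 3 ∨ H.index = 5 := by omega
  rcases this with h | h | h <;> rw [h] at h3
  · exact Or.inl fun x => by simpa using h3 x
  · exact Or.inr (Or.inl fun x => by convert h3 x using 1; abel)
  · exact Or.inr (Or.inr (Or.inl fun x => by convert h3 x using 1; abel))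

lemma exact5 {e : ℕ} (hodd : Odd (Fintype.card G))
    (he : ∀ d, d ∣ Fintype.card G → 5 < d → e ≤ d) {E : Finset G} (hs : ∀ x ∈ E, -x ∈ E)
    (h0 : (0 : G) ∉ E + E + E + E + E) : 5 * e * E.card ≤ (e + 3) * Fintype.card G := by
  rcases E.eq_empty_or_nonempty with rfl | hE
  · simp
  have hd : Disjoint (E + E + E + E + E) (St (E + E + E + E + E)) :=
    disjoint_left.mpr fun z h1 h2 => h0 (by simpa using mem_St.mp (neg_mem_St h2) z h1)
  have k2 := kneser E E hE hE
  have k3 := kneser (E + E) E (hE.add hE) hE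
  have k4 := kneser (E + E + E) E ((hE.add hE).add hE) hE
  have k5 := kneser (E + E + E + E) E (((hE.add hE).add hE).add hE) hE
  have s2 := card_le_card (St_add_subset (E + E) E)
  have s3 := card_le_card (St_add_subset (E + E + E) E)
  have s4 := card_le_card (St_add_subset (E + E + E + E) E)
  have s5 := card_le_univ ((E + E + E + E + E) ∪ St (E + E + E + E + E))
  rw [card_union_of_disjoint hd] at s5
  obtain ⟨x, hx⟩ := hE
  have hx' := hs x hx
  rcases index_cases hodd he (E + E + E + E + E) with h | h | h | h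
  · refine absurd (h x) (disjoint_left.mp hd ?_)
    simpa using add_mem_add (add_mem_add (add_mem_add (add_mem_add hx hx') hx) hx') hx
  · refine absurd (h x) (disjoint_left.mp hd ?_)
    simpa using add_mem_add (add_mem_add (add_mem_add (add_mem_add hx hx') hx) hx) hx
  · exact absurd (h x) (disjoint_left.mp hd
      (add_mem_add (add_mem_add (add_mem_add (add_mem_add hx hx) hx) hx) hx))
  · have : 5 * E.card ≤ Fintype.card G + 3 * (St (E + E + E + E + E)).card := by omega
    nlinarith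

/-- classes containing many points of `F` -/
noncomputable def Dn (F Y : Finset G) (c : ℝ) : Finset G :=
  univ.filter fun x => c < ((F.filter fun y => y - x ∈ St Y).card : ℝ)

lemma Dn_neg {F Y : Finset G} {c : ℝ} (hs : ∀ x ∈ F, -x ∈ F) {x : G} (hx : x ∈ Dn F Y c) :
    -x ∈ Dn F Y c := by
  simp only [Dn, mem_filter, mem_univ, true_and] at hx ⊢
  refine hx.trans_le (Nat.cast_le.mpr (card_le_card_of_injOn (fun y => -y) ?_ ?_))
  · intro y hy
    simp only [coe_filter, Set.mem_ofPred_eq] at hy ⊢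
    refine ⟨hs y hy.1, ?_⟩
    convert neg_mem_St hy.2 using 1; abel
  · exact fun a _ b _ h => neg_injective h

lemma card_le_Dn (F Y : Finset G) {c : ℝ} (hc : 0 ≤ c) :
    ((F \ Dn F Y c).card : ℝ) * (St Y).card ≤ c * Fintype.card G := by
  have h1 : (F \ Dn F Y c).card * (St Y).card =
      ∑ x : G, ((F \ Dn F Y c).filter fun y => y - x ∈ St Y).card := by
    simp only [card_filter]
    rw [sum_comm, sum_congr rfl (g := fun _ => (St Y).card), sum_const, smul_eq_mul]
    intro y _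
    rw [← card_filter]
    exact card_bij (fun x _ => y - x) (fun x hx => (mem_filter.mp hx).2)
      (fun x _ z _ e => by simpa using e) (fun h hh => ⟨y - h, by simpa using hh, by simp⟩)
  have h2 : ((F \ Dn F Y c).card : ℝ) * (St Y).card =
      ∑ x : G, (((F \ Dn F Y c).filter fun y => y - x ∈ St Y).card : ℝ) := by exact_mod_cast h1
  rw [h2, mul_comm, ← card_univ, ← nsmul_eq_mul]
  refine sum_le_card_nsmul _ _ _ fun x _ => ?_
  rcases ((F \ Dn F Y c).filter fun y => y - x ∈ St Y).eq_empty_or_nonempty with h | ⟨y, hy⟩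
  · rw [h]; simpa using hc
  · simp only [mem_filter, mem_sdiff, Dn, mem_univ, true_and, not_lt] at hy
    refine le_trans (Nat.cast_le.mpr (card_le_card fun z hz => ?_)) hy.1.2
    simp only [mem_filter, mem_sdiff] at hz ⊢
    refine ⟨hz.1.1, ?_⟩
    convert sub_mem_St hz.2 hy.2 using 1; abel

omit [Fintype G] [AddCommGroup G] [DecidableEq G] in
lemma exists_not_bad {X Bd : Finset G} {c : ℝ} (h1 : c < X.card) (h2 : (Bd.card : ℝ) ≤ c) :
    ∃ x ∈ X, x ∉ Bd := by
  refine exists_mem_notMem_of_card_lt_card ?_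
  exact_mod_cast h2.trans_lt h1

lemma class_big {F F' Y : Finset G} {c : ℝ} (h : ((F \ F').card : ℝ) ≤ c) {u : G}
    (hu : u ∈ Dn F Y (3 * c)) : 2 * c < ((F'.filter fun y => y - u ∈ St Y).card : ℝ) := by
  simp only [Dn, mem_filter, mem_univ, true_and] at hu
  have : (F.filter fun y => y - u ∈ St Y).card ≤
      (F'.filter fun y => y - u ∈ St Y).card + (F \ F').card := by
    refine le_trans (card_le_card fun z hz => ?_) (card_union_le _ _)
    simp only [mem_filter, mem_union, mem_sdiff] at hz ⊢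
    tauto
  have : ((F.filter fun y => y - u ∈ St Y).card : ℝ) ≤
      (F'.filter fun y => y - u ∈ St Y).card + (F \ F').card := by exact_mod_cast this
  linarith

lemma class_pt {F F' Y : Finset G} {c : ℝ} (hc : 0 ≤ c) (h : ((F \ F').card : ℝ) ≤ c) {u : G}
    (hu : u ∈ Dn F Y (3 * c)) : ∃ x ∈ F', x - u ∈ St Y := by
  obtain ⟨x, hx, -⟩ := exists_not_bad (Bd := ∅) (class_big h hu) (by simpa using hc)
  exact ⟨x, (mem_filter.mp hx).1, (mem_filter.mp hx).2⟩

lemma class_sum {F F1 F2 P Y : Finset G} {c : ℝ} (hc : 0 ≤ c) (h1 : ((F \ F1).card : ℝ) ≤ c)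
    (h2 : ((F \ F2).card : ℝ) ≤ c) (hP : (((F1 + F2) \ P).card : ℝ) ≤ 2 * c) {u v : G}
    (hu : u ∈ Dn F Y (3 * c)) (hv : v ∈ Dn F Y (3 * c)) :
    ∃ p ∈ P, p ∈ F1 + F2 ∧ p - (u + v) ∈ St Y := by
  obtain ⟨b, hb, hbv⟩ := class_pt hc h2 hv
  obtain ⟨p, hp, hn⟩ := exists_not_bad (X := (F1.filter fun y => y - u ∈ St Y).image (· + b))
    (by rw [card_image_of_injective _ (add_left_injective b)]; exact class_big h1 hu) hP
  obtain ⟨a, ha, rfl⟩ := mem_image.mp hp
  rw [mem_filter] at ha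
  have hS := add_mem_add ha.1 hb
  refine ⟨a + b, by_contra fun h => hn (mem_sdiff.mpr ⟨hS, h⟩), hS, ?_⟩
  convert add_mem_St ha.2 hbv using 1; abel

omit [Fintype G] in
lemma mem5 {E : Finset G} (h : (0 : G) ∈ E + E + E + E + E) :
    ∃ a ∈ E, ∃ b ∈ E, ∃ c ∈ E, ∃ d ∈ E, ∃ f ∈ E, a + b + c + d + f = 0 := by
  obtain ⟨_, h1, f, hf, e⟩ := mem_add.mp h
  obtain ⟨_, h2, d, hd, rfl⟩ := mem_add.mp h1
  obtain ⟨_, h3, c, hc, rfl⟩ := mem_add.mp h2
  obtain ⟨a, ha, b, hb, rfl⟩ := mem_add.mp h3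
  exact ⟨a, ha, b, hb, c, hc, d, hd, f, hf, e⟩

lemma finish {e : ℕ} (he0 : 0 < e) (hodd : Odd (Fintype.card G))
    (he : ∀ d, d ∣ Fintype.card G → 5 < d → e ≤ d) {γ : ℝ} (hγ : 0 < γ) (hγ1 : γ ≤ 1)
    {F F1 F2 F3 P1 P2 : Finset G} (hs : ∀ x ∈ F, -x ∈ F) {c : ℝ}
    (hc : c = γ ^ 2 / 200 * Fintype.card G)
    (h1 : ((F \ F1).card : ℝ) ≤ c) (h2 : ((F \ F2).card : ℝ) ≤ c) (h3 : ((F \ F3).card : ℝ) ≤ c)
    (hP1 : (((F1 + F2) \ P1).card : ℝ) ≤ 2 * c) (hP2 : (((F1 + F2) \ P2).card : ℝ) ≤ 2 * c)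
    (h0 : ∀ a ∈ P1, ∀ b ∈ P2, ∀ x ∈ F3, a + b + x ≠ 0) :
    5 * (F.card : ℝ) ≤ (1 + 3 / e + γ) * Fintype.card G := by
  have hn : (0 : ℝ) < Fintype.card G := by exact_mod_cast Fintype.card_pos
  have he' : (0 : ℝ) < e := by exact_mod_cast he0
  have h3e : 0 < 3 / (e : ℝ) * Fintype.card G := by positivity
  have hc0 : 0 ≤ c := by rw [hc]; positivity
  have hγ2 : γ ^ 2 ≤ γ := by nlinarith
  have hcs : c ≤ γ / 200 * Fintype.card G := by rw [hc]; gcongr
  have hγn : γ * Fintype.card G ≤ Fintype.card G := by nlinarith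
  have dense : ∀ Y : Finset G, γ / 8 * Fintype.card G ≤ (St Y).card →
      (0 : G) ∉ Dn F Y (3 * c) + Dn F Y (3 * c) + Dn F Y (3 * c) + Dn F Y (3 * c) +
        Dn F Y (3 * c) → 5 * (F.card : ℝ) ≤ (1 + 3 / e + γ) * Fintype.card G := by
    intro Y hY hz
    have a1 : (5 : ℝ) * e * (Dn F Y (3 * c)).card ≤ (e + 3) * Fintype.card G := by
      exact_mod_cast exact5 hodd he (fun x hx => Dn_neg hs hx) hz
    have a2 := card_le_Dn F Y (c := 3 * c) (by positivity)
    have a3 : (F.card : ℝ) ≤ (F \ Dn F Y (3 * c)).card + (Dn F Y (3 * c)).card := by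
      exact_mod_cast card_le_card_sdiff_add_card
    have a4 : 5 * ((Dn F Y (3 * c)).card : ℝ) ≤ (1 + 3 / e) * Fintype.card G := by
      refine le_of_mul_le_mul_left ?_ he'
      calc (e : ℝ) * (5 * (Dn F Y (3 * c)).card) ≤ (e + 3) * Fintype.card G := by linarith
        _ = _ := by field_simp
    have a5 : ((F \ Dn F Y (3 * c)).card : ℝ) * (γ / 8 * Fintype.card G) ≤
        (γ / 5 * Fintype.card G) * (γ / 8 * Fintype.card G) := by
      refine le_trans (mul_le_mul_of_nonneg_left hY (Nat.cast_nonneg _)) (a2.trans ?_)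
      rw [hc]
      have : 0 ≤ γ ^ 2 * (Fintype.card G : ℝ) ^ 2 := by positivity
      nlinarith
    have a6 := le_of_mul_le_mul_right a5 (by positivity)
    linarith
  by_cases hA : γ / 8 * Fintype.card G ≤ (St (F1 + F2)).card
  · refine dense _ hA fun hz => ?_
    obtain ⟨u1, m1, u2, m2, u3, m3, u4, m4, u5, m5, e5⟩ := mem5 hz
    obtain ⟨s1, -, t1, r1⟩ := class_sum hc0 h1 h2 hP1 m1 m2
    obtain ⟨s2, -, t2, r2⟩ := class_sum hc0 h1 h2 hP1 m3 m4
    obtain ⟨x, hx, r3⟩ := class_pt hc0 h3 m5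
    have r4 : -x - s1 - s2 ∈ St (F1 + F2) := by
      convert neg_mem_St (add_mem_St (add_mem_St r1 r2) r3) using 1
      linear_combination (norm := abel1) -e5
    obtain ⟨h, hh, hb⟩ := exists_not_bad (X := St (F1 + F2)) (c := 4 * c)
      (Bd := ((F1 + F2) \ P1).image (· - s1) ∪ ((F1 + F2) \ P2).image (fun z => -x - s1 - z))
      (by have : 0 < γ * Fintype.card G := by positivity
          linarith)
      (by
        have := (card_union_le (((F1 + F2) \ P1).image (· - s1))
          (((F1 + F2) \ P2).image (fun z => -x - s1 - z))).trans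
          (add_le_add card_image_le card_image_le)
        have : (((((F1 + F2) \ P1).image (· - s1)) ∪
          (((F1 + F2) \ P2).image (fun z => -x - s1 - z))).card : ℝ) ≤
            ((F1 + F2) \ P1).card + ((F1 + F2) \ P2).card := by exact_mod_cast this
        linarith)
    rw [mem_union, not_or] at hb
    have p1 : s1 + h ∈ P1 := by_contra fun hc =>
      hb.1 (mem_image.mpr ⟨s1 + h, mem_sdiff.mpr ⟨mem_St.mp hh _ t1, hc⟩, by abel⟩)
    have p2 : s2 + (-x - s1 - s2 - h) ∈ P2 := by_contra fun hc =>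
      hb.2 (mem_image.mpr ⟨_, mem_sdiff.mpr ⟨mem_St.mp (sub_mem_St r4 hh) _ t2, hc⟩, by abel⟩)
    exact h0 _ p1 _ p2 x hx (by abel)
  have hz0 : (0 : G) ∉ P1 + P2 + F3 := by
    intro hz
    obtain ⟨_, h, x, hx, e⟩ := mem_add.mp hz
    obtain ⟨a, ha, b, hb, rfl⟩ := mem_add.mp h
    exact h0 a ha b hb x hx e
  by_cases hB : γ / 8 * Fintype.card G ≤ (St (P1 + P2 + F3)).card
  · refine dense _ hB fun hz => ?_
    obtain ⟨u1, m1, u2, m2, u3, m3, u4, m4, u5, m5, e5⟩ := mem5 hz
    obtain ⟨s1, t1, -, r1⟩ := class_sum hc0 h1 h2 hP1 m1 m2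
    obtain ⟨s2, t2, -, r2⟩ := class_sum hc0 h1 h2 hP2 m3 m4
    obtain ⟨x, hx, r3⟩ := class_pt hc0 h3 m5
    have r4 := mem_St.mp (neg_mem_St (add_mem_St (add_mem_St r1 r2) r3)) _
      (add_mem_add (add_mem_add t1 t2) hx)
    refine hz0 ?_
    convert r4 using 1
    linear_combination (norm := abel1) -e5
  push Not at hA hB
  by_contra hcon
  push Not at hcon
  have b : ∀ X Y : Finset G, (X.card : ℝ) ≤ (X \ Y).card + Y.card := fun X Y => by
    exact_mod_cast card_le_card_sdiff_add_card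
  have ne : ∀ X : Finset G, (0 : ℝ) < X.card → X.Nonempty := fun X h =>
    card_pos.mp (by exact_mod_cast h)
  have b1 := b F F1
  have b2 := b F F2
  have b3 := b F F3
  have b4 := b (F1 + F2) P1
  have b5 := b (F1 + F2) P2
  have hγ0 : 0 < γ * Fintype.card G := by positivity
  have n1 := ne F1 (by linarith)
  have n2 := ne F2 (by linarith)
  have n3 := ne F3 (by linarith)
  have k1 : (F1.card : ℝ) + F2.card ≤ (F1 + F2).card + (St (F1 + F2)).card := by
    exact_mod_cast kneser F1 F2 n1 n2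
  have n4 := ne P1 (by linarith)
  have n5 := ne P2 (by linarith)
  have k2 : (P1.card : ℝ) + P2.card ≤ (P1 + P2).card + (St (P1 + P2)).card := by
    exact_mod_cast kneser P1 P2 n4 n5
  have k3 : ((P1 + P2).card : ℝ) + F3.card ≤ (P1 + P2 + F3).card + (St (P1 + P2 + F3)).card := by
    exact_mod_cast kneser (P1 + P2) F3 (n4.add n5) n3
  have k4 : ((St (P1 + P2)).card : ℝ) ≤ (St (P1 + P2 + F3)).card := by
    exact_mod_cast card_le_card (St_add_subset (P1 + P2) F3)
  have k5 : ((P1 + P2 + F3).card : ℝ) ≤ Fintype.card G := by exact_mod_cast card_le_univ _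
  linarith

end

/-- Robust form: few five-term zero sums force small density. -/
theorem robust {γ : ℝ} (hγ : 0 < γ) (hγ1 : γ ≤ 1) : ∃ θ : ℝ, 0 < θ ∧ ∀ (G : Type) [AddCommGroup G]
    [Fintype G] [DecidableEq G] (e : ℕ), 0 < e → Odd (Fintype.card G) →
    (∀ d, d ∣ Fintype.card G → 5 < d → e ≤ d) → ∀ F : Finset G, (∀ x ∈ F, -x ∈ F) →
    ((Zs 5 F).card : ℝ) ≤ θ * (Fintype.card G : ℝ) ^ 4 →
    5 * (F.card : ℝ) ≤ (1 + 3 / e + γ) * Fintype.card G := by
  obtain ⟨δ, hδ, H⟩ := removal (ε := γ ^ 2 / 200) (by positivity)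
  refine ⟨δ ^ 3, by positivity, ?_⟩
  intro G _ _ _ e he0 hodd he F hs hZ
  classical
  have hn : (0 : ℝ) < Fintype.card G := by exact_mod_cast Fintype.card_pos
  set P : Finset G := univ.filter fun x =>
    δ * Fintype.card G ≤ ((F.filter fun a => x - a ∈ F).card : ℝ) with hP
  obtain ⟨F1, -, F2, -, Q, -, h1, h2, hQ, hz1⟩ := H G F F (univ.filter fun y => -y ∉ P) (by
    rw [card_eq_sum_card_fiberwise (f := fun p : G × G => p.1 + p.2) (t := univ)
      (fun _ _ => mem_univ _)]
    push_cast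
    rw [sq, ← mul_assoc, mul_comm, ← card_univ, ← nsmul_eq_mul]
    refine sum_le_card_nsmul _ _ _ fun q _ => ?_
    by_cases hq : q ∈ P
    · rw [filter_eq_empty_iff.mpr]
      · simp only [card_empty, Nat.cast_zero]; positivity
      · intro p hp e
        simp only [Sol, mem_filter, mem_univ, true_and, neg_neg] at hp
        exact hp.2 (e ▸ hq)
    · simp only [hP, mem_filter, mem_univ, true_and, not_le] at hq
      refine le_trans (Nat.cast_le.mpr (card_le_card_of_injOn Prod.fst ?_ ?_)) hq.le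
      · intro p hp
        simp only [Sol, coe_filter, mem_filter, mem_product, Set.mem_ofPred_eq] at hp ⊢
        refine ⟨hp.1.1.1, ?_⟩
        rw [← hp.2]; simpa using hp.1.1.2
      · intro p hp p' hp' e
        simp only [coe_filter, Set.mem_ofPred_eq] at hp hp'
        refine Prod.ext e ?_
        have := hp.2.trans hp'.2.symm
        rw [e] at this
        simpa using this)
  obtain ⟨P1, -, P2, -, F3, -, g1, g2, h3, hz2⟩ := H G P P F (by
    have a1 : ((Sol P P F).sigma fun p => (F.filter fun a => p.1 - a ∈ F) ×ˢ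
        (F.filter fun a => p.2 - a ∈ F)).card ≤ (Zs 5 F).card := by
      refine card_le_card_of_injOn
        (fun z => ![z.2.1, z.1.1 - z.2.1, z.2.2, z.1.2 - z.2.2, -(z.1.1 + z.1.2)]) ?_ ?_
      · rintro ⟨⟨p, q⟩, a, b⟩ hz
        simp only [coe_sigma, Set.mem_sigma_iff, mem_coe, Sol, mem_filter, mem_product] at hz
        simp only [Zs, coe_filter, Fintype.mem_piFinset, Set.mem_ofPred_eq, Fin.sum_univ_five]
        refine ⟨fun i => ?_, by simp⟩
        fin_cases i
        exacts [hz.2.1.1, hz.2.1.2, hz.2.2.1, hz.2.2.2, hz.1.2]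
      · rintro ⟨⟨p, q⟩, a, b⟩ - ⟨⟨p', q'⟩, a', b'⟩ - e
        have e0 : a = a' := congrFun e 0
        have e1 : p - a = p' - a' := congrFun e 1
        have e2 : b = b' := congrFun e 2
        have e3 : q - b = q' - b' := congrFun e 3
        subst e0 e2
        obtain rfl : p = p' := by simpa using e1
        obtain rfl : q = q' := by simpa using e3
        rfl
    rw [card_sigma] at a1
    have a2 : ∑ p ∈ Sol P P F, ((((F.filter fun a => p.1 - a ∈ F) ×ˢ
        (F.filter fun a => p.2 - a ∈ F)).card : ℕ) : ℝ) ≤ (Zs 5 F).card := by exact_mod_cast a1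
    have a3 := card_nsmul_le_sum (Sol P P F) (fun p => ((((F.filter fun a => p.1 - a ∈ F) ×ˢ
        (F.filter fun a => p.2 - a ∈ F)).card : ℕ) : ℝ))
      ((δ * Fintype.card G) * (δ * Fintype.card G)) (by
        intro p hp
        simp only [Sol, hP, mem_filter, mem_product, mem_univ, true_and] at hp
        rw [card_product]
        push_cast
        exact mul_le_mul hp.1.1 hp.1.2 (by positivity) (Nat.cast_nonneg _))
    rw [nsmul_eq_mul] at a3
    refine le_of_mul_le_mul_right ?_ (by positivity : 0 < (δ * Fintype.card G) * (δ * Fintype.card G))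
    calc _ ≤ δ ^ 3 * (Fintype.card G : ℝ) ^ 4 := a3.trans (a2.trans hZ)
      _ = _ := by ring)
  have key : ∀ P' : Finset G, ((P \ P').card : ℝ) ≤ γ ^ 2 / 200 * Fintype.card G →
      (((F1 + F2) \ P').card : ℝ) ≤ 2 * (γ ^ 2 / 200 * Fintype.card G) := by
    intro P' hP'
    have a1 : (F1 + F2) \ P' ⊆
        ((univ.filter fun y => -y ∉ P) \ Q).image (fun y => -y) ∪ (P \ P') := by
      intro z hz
      rw [mem_sdiff] at hz
      obtain ⟨a, ha, b, hb, rfl⟩ := mem_add.mp hz.1
      by_cases hp : a + b ∈ P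
      · exact mem_union_right _ (mem_sdiff.mpr ⟨hp, hz.2⟩)
      · refine mem_union_left _ (mem_image.mpr ⟨-(a + b), mem_sdiff.mpr ⟨?_, fun hq => ?_⟩, by simp⟩)
        · rw [mem_filter, neg_neg]; exact ⟨mem_univ _, hp⟩
        · exact hz1 a ha b hb _ hq (by abel)
    have a2 := (card_le_card a1).trans ((card_union_le _ _).trans (add_le_add card_image_le le_rfl))
    have a3 : (((F1 + F2) \ P').card : ℝ) ≤
        ((univ.filter fun y => -y ∉ P) \ Q).card + (P \ P').card := by exact_mod_cast a2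
    linarith
  exact finish he0 hodd he hγ hγ1 hs rfl h1 h2 h3 (key _ g1) (key _ g2) hz2

end Pool.Agent.P.MP_d10a06_co.Odd
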