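import Pool.Agent.P.MP_d10a06_co.Bose

namespace Pool.Agent.P.MP_d10a06_co.Odd

open Finset

theorem sharp (j : ℕ) : ∃ A : Finset (ZMod (7 * (4 ^ (3 * j + 1) - 1))),
    A.card = 2 ^ (3 * j + 1) - 1 ∧ Indep (7 * (4 ^ (3 * j + 1) - 1)) 5 A := by
  classical
  have : Fintype (GaloisField 2 (3 * j + 1)) := Fintype.ofFinite _
  have cF : Nat.card (GaloisField 2 (3 * j + 1)) = 2 ^ (3 * j + 1) :=
    GaloisField.card 2 _ (by omega)
  have cK : Nat.card (FiniteField.Extension (GaloisField 2 (3 * j + 1)) 2 2) = 4 ^ (3 * j + 1) := by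
    rw [FiniteField.natCard_extension, cF, ← pow_mul, mul_comm, pow_mul]
    norm_num
  have fr := FiniteField.finrank_extension (GaloisField 2 (3 * j + 1)) 2 2
  obtain ⟨g, hg⟩ :=
    IsCyclic.exists_generator (α := (FiniteField.Extension (GaloisField 2 (3 * j + 1)) 2 2)ˣ)
  obtain ⟨h0, h1, H⟩ := bose_mul (F := GaloisField 2 (3 * j + 1)) (h := 2)
    (θ := (g : FiniteField.Extension (GaloisField 2 (3 * j + 1)) 2 2)) le_rfl
    fun f hf => gen_deg hg f (fr.symm ▸ hf)
  have ho : orderOf g = 4 ^ (3 * j + 1) - 1 := by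
    rw [orderOf_eq_card_of_forall_mem_zpowers hg, Nat.card_units, cK]
  have : ∀ x : (GaloisField 2 (3 * j + 1))ˣ, ∃ y : ℤ,
      (g : FiniteField.Extension (GaloisField 2 (3 * j + 1)) 2 2) ^ y =
      ((g : FiniteField.Extension (GaloisField 2 (3 * j + 1)) 2 2) +
        algebraMap (GaloisField 2 (3 * j + 1)) _ x) / g := fun x => by
    obtain ⟨y, hy⟩ := hg (Units.mk0 _ (div_ne_zero (h1 x) h0))
    exact ⟨y, by rw [← Units.val_zpow_eq_zpow_val]; simp [hy]⟩
  choose y hy using this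
  have M7 : (4 ^ (3 * j + 1) - 1) % 7 = 3 := by
    have h : 4 ^ (3 * j + 1) % 7 = 4 := by
      rw [pow_succ, pow_mul, Nat.mul_mod, Nat.pow_mod]; norm_num
    omega
  rw [← cF, ← Nat.card_units, Nat.card_eq_fintype_card, ← ho]
  rw [← ho] at M7
  obtain ⟨i, hi⟩ : ∃ i : ℤ, (orderOf g : ℤ) = 7 * i + 3 := ⟨orderOf g / 7, by omega⟩
  refine indep_of_fun (by norm_num)
    (fun x => (((1 - 5 * orderOf g) * y x + 5 * orderOf g : ℤ) : ZMod (7 * orderOf g)))
    fun c hc hz => ?_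
  have dv : ((7 * orderOf g : ℕ) : ℤ) ∣
      (1 - 5 * orderOf g) * ∑ x, c x * y x + 5 * orderOf g * ∑ x, c x := by
    rw [← ZMod.intCast_zmod_eq_zero_iff_dvd, ← hz, mul_sum, mul_sum, ← sum_add_distrib]
    push_cast
    exact sum_congr rfl fun x _ => by rw [zsmul_eq_mul]; push_cast; ring
  push_cast at dv
  have d1 : (orderOf g : ℤ) ∣ ∑ x, c x * y x := by
    have := (Dvd.intro_left 7 rfl).trans dv
    have e : ∑ x, c x * y x = (1 - 5 * orderOf g) * ∑ x, c x * y x + 5 * orderOf g * ∑ x, c x +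
      orderOf g * (5 * (∑ x, c x * y x - ∑ x, c x)) := by ring
    rw [e]
    exact this.add (Dvd.intro _ rfl)
  have d7 : (7 : ℤ) ∣ ∑ x, c x := by
    have := (Dvd.intro _ rfl).trans dv
    have e : ∑ x, c x = (1 - 5 * orderOf g) * ∑ x, c x * y x + 5 * orderOf g * ∑ x, c x +
      7 * ((5 * i + 2) * (∑ x, c x * y x - ∑ x, c x)) := by rw [hi]; ring
    rw [e]
    exact this.add (Dvd.intro _ rfl)
  have pr : ∏ x : (GaloisField 2 (3 * j + 1))ˣ,
      (((g : FiniteField.Extension (GaloisField 2 (3 * j + 1)) 2 2) +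
        algebraMap (GaloisField 2 (3 * j + 1)) _ x) / g) ^ c x = 1 := by
    have e : (g : FiniteField.Extension (GaloisField 2 (3 * j + 1)) 2 2) ^ (∑ x, c x * y x) = 1 := by
      rw [← Units.val_zpow_eq_zpow_val, orderOf_dvd_iff_zpow_eq_one.1 d1, Units.val_one]
    simp only [← hy, ← zpow_mul]
    rw [← e]
    induction (univ : Finset (GaloisField 2 (3 * j + 1))ˣ) using Finset.induction_on with
    | empty => simp
    | insert a s ha ih =>
      rw [prod_insert ha, sum_insert ha, ih, zpow_add₀ g.ne_zero, mul_comm (c a)]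
  have e1 : ∑ x, |c x| = (∑ x, (c x).toNat : ℕ) + (∑ x, (-c x).toNat : ℕ) := by
    push_cast
    rw [← sum_add_distrib]
    exact sum_congr rfl fun x _ => by rcases abs_cases (c x) with h | h <;> omega
  have e2 : ∑ x, c x = (∑ x, (c x).toNat : ℕ) - (∑ x, (-c x).toNat : ℕ) := by
    push_cast
    rw [← sum_sub_distrib]
    exact sum_congr rfl fun x _ => by omega
  exact H c (by omega) (by omega) pr

end Pool.Agent.P.MP_d10a06_co.Odd
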