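import Pool.Agent.P.MP_d10a06_co.Odd.Fourier
import Pool.Agent.P.MP_d10a06_co.Bose

namespace Pool.Agent.P.MP_d10a06_co.Odd

open Finset

theorem dense_bound {γ : ℝ} (hγ : 0 < γ) (hγ1 : γ ≤ 1) : ∃ N : ℕ, ∀ (G : Type) [AddCommGroup G]
    [Fintype G] [DecidableEq G] (e : ℕ), 0 < e → N ≤ Fintype.card G → Odd (Fintype.card G) →
    (∀ d, d ∣ Fintype.card G → 5 < d → e ≤ d) → ∀ T : Finset G, (∀ x ∈ T, -x ∈ T) →
    (∀ a ∈ T, ∀ b ∈ T, ∀ c ∈ T, ∀ d ∈ T, a + b + c + d = 0 → a + b = 0 ∨ a + c = 0 ∨ a + d = 0) →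
    Zs 5 T = ∅ → 5 * (T.card : ℝ) ^ 2 ≤ 2 * (1 + 3 / e + γ) * Fintype.card G := by
  obtain ⟨θ, hθ, R⟩ := robust (γ := γ / 2) (by positivity) (by linarith)
  obtain ⟨η, hη⟩ : ∃ η : ℝ, η = γ / 25 := ⟨_, rfl⟩
  have hη0 : 0 < η := by rw [hη]; positivity
  obtain ⟨ε, hε⟩ : ∃ ε : ℝ, ε = θ * η ^ 5 / 38 := ⟨_, rfl⟩
  have hε0 : 0 < ε := by rw [hε]; positivity
  obtain ⟨C, hC⟩ : ∃ C : ℕ, C = ((⌊4 / ε⌋₊ + 1) * (⌊4 / ε⌋₊ + 1)) ^ ⌊8 / ε ^ 4⌋₊ := ⟨_, rfl⟩
  refine ⟨⌈4 * (C : ℝ) ^ 2 / η ^ 2⌉₊ + 10, ?_⟩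
  intro G _ _ _ e he0 hN hodd he T hT h4 h5
  classical
  by_contra hcon
  push Not at hcon
  have hn : (0 : ℝ) < Fintype.card G := by exact_mod_cast Fintype.card_pos
  have he1 : (1 : ℝ) ≤ e := by exact_mod_cast he0
  have hu0 : 0 < 3 / (e : ℝ) := by positivity
  have hu3 : 3 / (e : ℝ) ≤ 3 := div_le_self (by norm_num) he1
  obtain ⟨u, hu⟩ : ∃ u : ℝ, u = 3 / (e : ℝ) := ⟨_, rfl⟩
  rw [← hu] at hu0 hu3 hcon
  have hN' : 4 * (C : ℝ) ^ 2 / η ^ 2 + 10 ≤ Fintype.card G := by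
    have h1 := Nat.le_ceil (4 * (C : ℝ) ^ 2 / η ^ 2)
    have h2 : ((⌈4 * (C : ℝ) ^ 2 / η ^ 2⌉₊ + 10 : ℕ) : ℝ) ≤ Fintype.card G := Nat.cast_le.mpr hN
    push_cast at h2
    linarith
  have hCη : 0 ≤ 4 * (C : ℝ) ^ 2 / η ^ 2 := by positivity
  have hM : 2 * (Fintype.card G : ℝ) < 5 * (T.card : ℝ) ^ 2 := by nlinarith
  have hM0 : (0 : ℝ) ≤ T.card := Nat.cast_nonneg _
  have hM2 : (2 : ℝ) < T.card := by nlinarith
  have CS : ∀ B F : Finset G, (∑ x ∈ F, (ww T B x : ℝ)) ^ 2 ≤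
      F.card * (T.card * B.card + 2 * (B.card : ℝ) ^ 2) := by
    intro B F
    refine sq_sum_le_card_mul_sum_sq.trans (mul_le_mul_of_nonneg_left ?_ (Nat.cast_nonneg _))
    refine (sum_le_sum_of_subset_of_nonneg (subset_univ F) fun _ _ _ => sq_nonneg _).trans ?_
    exact_mod_cast sum_ww_sq hT h4 B
  have SW : ∀ B : Finset G, ∑ x, (ww T B x : ℝ) = T.card * B.card := fun B => by
    exact_mod_cast sum_ww T B
  have hM4 : (T.card : ℝ) ^ 2 ≤ 4 * Fintype.card G := by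
    have := CS univ univ
    rw [SW, card_univ] at this
    have h1 : (T.card : ℝ) ^ 2 * (Fintype.card G : ℝ) ^ 2 ≤
        (T.card + 2 * Fintype.card G) * (Fintype.card G : ℝ) ^ 2 := by linarith
    have h2 := le_of_mul_le_mul_right h1 (by positivity)
    nlinarith
  set Γ : Finset (AddChar G ℂ) := univ.filter fun ψ => ε * T.card ≤ ‖∑ t ∈ T, ψ t‖ with hΓ
  have hΓc : Γ.card ≤ ⌊8 / ε ^ 4⌋₊ := by
    refine Nat.le_floor ?_
    have a1 := card_nsmul_le_sum Γ (fun ψ => ‖∑ t ∈ T, ψ t‖ ^ 4) ((ε * T.card) ^ 4) fun ψ hψ =>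
      pow_le_pow_left₀ (by positivity) (mem_filter.mp hψ).2 4
    have a2 := (sum_le_sum_of_subset_of_nonneg (subset_univ Γ)
      (f := fun ψ => ‖∑ t ∈ T, ψ t‖ ^ 4) fun _ _ _ => by positivity).trans (sum_norm4 hT h4)
    rw [nsmul_eq_mul] at a1
    rw [le_div_iff₀ (by positivity)]
    refine le_of_mul_le_mul_right ?_ (by positivity : 0 < (T.card : ℝ) ^ 4)
    have a3 : Fintype.card G * (3 * (T.card : ℝ) ^ 2) ≤ (5 / 2 * (T.card : ℝ) ^ 2) *
        (3 * (T.card : ℝ) ^ 2) := mul_le_mul_of_nonneg_right (by linarith) (by positivity)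
    have a4 : 0 ≤ (T.card : ℝ) ^ 4 := by positivity
    linarith
  set B := Bohr Γ ε with hB
  have hBc : (Fintype.card G : ℝ) ≤ B.card * C := by
    have a1 := card_Bohr Γ hε0
    have a2 := Nat.pow_le_pow_right (n := (⌊4 / ε⌋₊ + 1) * (⌊4 / ε⌋₊ + 1)) (by positivity) hΓc
    rw [← hC] at a2
    exact_mod_cast a1.trans (Nat.mul_le_mul_left _ a2)
  have hb0 : (0 : ℝ) < B.card := by
    by_contra hb
    have : (B.card : ℝ) = 0 := le_antisymm (not_lt.mp hb) (Nat.cast_nonneg _)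
    rw [this] at hBc
    linarith
  have hMb : (T.card : ℝ) ≤ η * B.card := by
    have a1 : 4 * (C : ℝ) ^ 2 ≤ Fintype.card G * η ^ 2 := by
      rw [← div_le_iff₀ (by positivity)]; linarith
    have a2 : (Fintype.card G : ℝ) ^ 2 ≤ (B.card * C) ^ 2 := by gcongr
    have a3 : (Fintype.card G : ℝ) * (4 * Fintype.card G) ≤ Fintype.card G * (η * B.card) ^ 2 := by
      have := mul_le_mul_of_nonneg_left a1 (sq_nonneg (B.card : ℝ))
      linarith
    exact (pow_le_pow_iff_left₀ hM0 (by positivity) two_ne_zero).mp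
      (hM4.trans (le_of_mul_le_mul_left a3 hn))
  obtain ⟨l, hl⟩ : ∃ l : ℝ, l = η * T.card * B.card / Fintype.card G := ⟨_, rfl⟩
  have hl0 : 0 < l := by rw [hl]; positivity
  have hln : l * Fintype.card G = η * T.card * B.card := by rw [hl]; field_simp
  set F : Finset G := univ.filter fun x => l ≤ ww T B x with hF
  have hZ : ((Zs 5 F).card : ℝ) ≤ θ * (Fintype.card G : ℝ) ^ 4 := by
    have a1 := (level_five T B hl0.le).trans (five_bound hT h4 h5 hε0 (B := B) fun ψ hψ x hx =>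
      (mem_filter.mp hx).2 ψ (mem_filter.mpr ⟨mem_univ _, hψ⟩))
    refine le_of_mul_le_mul_right (a1.trans ?_) (by positivity : 0 < l ^ 5)
    refine le_of_mul_le_mul_right ?_ hn
    have e1 : θ * (Fintype.card G : ℝ) ^ 4 * l ^ 5 * Fintype.card G =
        (38 * ε * (T.card : ℝ) ^ 3 * (B.card : ℝ) ^ 5) * (T.card : ℝ) ^ 2 := by
      calc _ = θ * (l * Fintype.card G) ^ 5 := by ring
        _ = _ := by rw [hln, hε]; ring
    rw [e1]
    have a2 : 0 ≤ ε * (T.card : ℝ) ^ 3 * (B.card : ℝ) ^ 5 := by positivity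
    have a3 := mul_le_mul_of_nonneg_left (by linarith : 15 * (Fintype.card G : ℝ) ≤
      38 * (T.card : ℝ) ^ 2) a2
    linarith
  have hR := R G e he0 hodd he F (fun x hx => by
    simp only [hF, mem_filter, mem_univ, true_and] at hx ⊢
    exact hx.trans (Nat.cast_le.mpr (ww_neg hT (fun y hy => Bohr_neg hy) x))) hZ
  rw [← hu] at hR
  have a1 : ∑ x ∈ univ.filter (fun x => ¬ l ≤ ww T B x), (ww T B x : ℝ) ≤ l * Fintype.card G := by
    refine (sum_le_card_nsmul _ _ l fun x hx => (not_le.mp (mem_filter.mp hx).2).le).trans ?_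
    rw [nsmul_eq_mul, mul_comm]
    exact mul_le_mul_of_nonneg_left (Nat.cast_le.mpr (card_le_univ _)) hl0.le
  have a2 := sum_filter_add_sum_filter_not univ (fun x => l ≤ ww T B x) fun x => (ww T B x : ℝ)
  rw [SW, ← hF] at a2
  have hη1 : η ≤ 1 / 25 := by linarith
  have a3 : ((1 - η) * T.card * B.card) ^ 2 ≤ (∑ x ∈ F, (ww T B x : ℝ)) ^ 2 :=
    pow_le_pow_left₀ (mul_nonneg (mul_nonneg (by linarith) hM0) hb0.le) (by linarith) 2
  have a4 : (F.card : ℝ) * (T.card * B.card + 2 * (B.card : ℝ) ^ 2) ≤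
      F.card * ((η * B.card) * B.card + 2 * (B.card : ℝ) ^ 2) := by gcongr
  have a5 : (1 - η) ^ 2 * (T.card : ℝ) ^ 2 ≤ F.card * (2 + η) := by
    refine le_of_mul_le_mul_right ?_ (by positivity : 0 < (B.card : ℝ) ^ 2)
    have := a3.trans ((CS B F).trans a4)
    linarith
  have a6 := mul_le_mul_of_nonneg_left hcon.le (sq_nonneg (1 - η))
  have a7 := mul_le_mul_of_nonneg_right hR (by positivity : 0 ≤ 2 + η)
  have a8 : (1 - η) ^ 2 * (2 * (1 + u + γ)) ≤ (1 + u + γ / 2) * (2 + η) := by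
    refine le_of_mul_le_mul_right ?_ hn
    linarith
  have a9 : 0 < η ^ 2 * (1 + u + γ) := by positivity
  have a10 : η * u ≤ η * 3 := by gcongr
  have a11 : η * γ ≤ η * 1 := by gcongr
  nlinarith

lemma rel {n : ℕ} {A : Finset (ZMod n)} (hA : Indep n 5 A) {k : ℕ} (hk : k ≤ 5)
    (a : Fin k → ZMod n) (ha : ∀ i, a i ∈ A) (s : Fin k → ℤ) (hs : ∀ i, s i = 1 ∨ s i = -1)
    (h0 : ∑ i, s i • a i = 0) : ∀ x ∈ A, ∑ i, (if a i = x then s i else 0) = 0 := by
  have h1 : ∑ x ∈ A, |∑ i, (if a i = x then s i else 0)| ≤ (5 : ℕ) := by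
    calc _ ≤ ∑ x ∈ A, ∑ i, (if a i = x then (1 : ℤ) else 0) := by
          refine sum_le_sum fun x _ => (abs_sum_le_sum_abs _ _).trans (sum_le_sum fun i _ => ?_)
          rcases hs i with h | h <;> split_ifs <;> simp [h]
      _ = k := by rw [sum_comm]; simp [ha]
      _ ≤ _ := by exact_mod_cast hk
  have h2 : ∑ x ∈ A, (∑ i, (if a i = x then s i else 0)) • x = 0 := by
    simp only [sum_smul]
    rw [sum_comm, ← h0]
    exact sum_congr rfl fun i _ => by simp [ha]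
  have h3 : ∑ x ∈ A, |∑ i, (if a i = x then s i else 0)| = 0 := by
    by_contra hc
    have : 0 ≤ ∑ x ∈ A, |∑ i, (if a i = x then s i else 0)| := sum_nonneg fun _ _ => abs_nonneg _
    exact hA _ (by omega) h1 h2
  intro x hx
  exact abs_eq_zero.mp ((sum_eq_zero_iff_of_nonneg fun _ _ => abs_nonneg _).mp h3 x hx)

lemma rel_sum {n : ℕ} {A : Finset (ZMod n)} (hA : Indep n 5 A) {k : ℕ} (hk : k ≤ 5)
    (a : Fin k → ZMod n) (ha : ∀ i, a i ∈ A) (s : Fin k → ℤ) (hs : ∀ i, s i = 1 ∨ s i = -1)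
    (h0 : ∑ i, s i • a i = 0) : ∑ i, s i = 0 := by
  have := sum_eq_zero (rel hA hk a ha s hs h0)
  rw [sum_comm] at this
  simpa [ha] using this

theorem upper {γ : ℝ} (hγ : 0 < γ) : ∃ N : ℕ, ∀ n e : ℕ, N ≤ n → Odd n → 0 < e →
    (∀ d, d ∣ n → 5 < d → e ≤ d) → ∀ A : Finset (ZMod n), Indep n 5 A →
    10 * (A.card : ℝ) ^ 2 ≤ (1 + 3 / e + γ) * n := by
  obtain ⟨N, H⟩ := dense_bound (γ := min γ 1) (lt_min hγ one_pos) (min_le_right _ _)
  refine ⟨N, fun n e hN hodd he0 he A hA => ?_⟩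
  have : NeZero n := ⟨hodd.pos.ne'⟩
  have dec : ∀ t ∈ A ∪ A.image (fun x => -x), ∃ a ∈ A, ∃ s : ℤ, (s = 1 ∨ s = -1) ∧ t = s • a := by
    intro t ht
    rcases mem_union.mp ht with h | h
    · exact ⟨t, h, 1, Or.inl rfl, by simp⟩
    · obtain ⟨a, ha, rfl⟩ := mem_image.mp h
      exact ⟨a, ha, -1, Or.inr rfl, by simp⟩
  have hd : Disjoint A (A.image fun x => -x) := by
    refine disjoint_left.mpr fun a ha h => ?_
    obtain ⟨b, hb, e⟩ := mem_image.mp h
    have := rel_sum hA (k := 2) (by norm_num) ![a, b] (by simp [Fin.forall_fin_two, ha, hb])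
      (fun _ => 1) (fun _ => Or.inl rfl) (by simp [← e])
    simp at this
  have := H (ZMod n) e he0 (by rwa [ZMod.card]) (by rwa [ZMod.card]) (by rwa [ZMod.card])
    (A ∪ A.image fun x => -x) (by
      intro x hx
      rcases mem_union.mp hx with h | h
      · exact mem_union_right _ (mem_image_of_mem _ h)
      · obtain ⟨a, ha, rfl⟩ := mem_image.mp h
        exact mem_union_left _ (by simpa using ha))
    (by
      intro a' ha' b' hb' c' hc' d' hd' e
      obtain ⟨a, ha, p, hp, rfl⟩ := dec a' ha'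
      obtain ⟨b, hb, q, hq, rfl⟩ := dec b' hb'
      obtain ⟨c, hc, r, hr, rfl⟩ := dec c' hc'
      obtain ⟨d, hd, s, hs, rfl⟩ := dec d' hd'
      have := rel hA (k := 4) (by norm_num) ![a, b, c, d]
        (fun i => by fin_cases i <;> assumption) ![p, q, r, s]
        (fun i => by fin_cases i <;> assumption) (by simpa [Fin.sum_univ_four] using e) a ha
      simp only [Fin.sum_univ_four, Matrix.cons_val, if_true] at this
      by_contra hcon
      simp only [not_or] at hcon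
      have k : ∀ (y : ZMod n) (t : ℤ), (t = 1 ∨ t = -1) → p • a + t • y ≠ 0 →
          (if y = a then t else 0) = 0 ∨ (if y = a then t else 0) = p := by
        intro y t ht hne
        split_ifs with hy
        · subst hy
          rcases hp with rfl | rfl <;> rcases ht with rfl | rfl <;> simp at hne ⊢
        · exact Or.inl rfl
      have k1 := k b q hq hcon.1
      have k2 := k c r hr hcon.2.1
      have k3 := k d s hs hcon.2.2
      omega)
    (by
      rw [Zs, filter_eq_empty_iff]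
      intro x hx e
      choose a ha s hs h using fun i => dec _ (Fintype.mem_piFinset.mp hx i)
      have := rel_sum hA le_rfl a ha s hs (by rw [← e]; exact sum_congr rfl fun i _ => (h i).symm)
      rw [Fin.sum_univ_five] at this
      have := hs 0; have := hs 1; have := hs 2; have := hs 3; have := hs 4
      omega)
  rw [card_union_of_disjoint hd, card_image_of_injective _ neg_injective, ZMod.card] at this
  push_cast at this
  have h1 : min γ 1 * (n : ℝ) ≤ γ * n := by gcongr; exact min_le_left _ _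
  linarith

end Pool.Agent.P.MP_d10a06_co.Odd
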